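import Mathlib

open MeasureTheory FourierTransform

namespace Helper77.TA

/-- `E` has density at least `θ` on every segment of length `L` in direction `ω`. -/
def ThickAlong {V : Type*} [NormedAddCommGroup V] [InnerProductSpace ℝ V]
    (E : Set V) (L θ : ℝ) (ω : V) : Prop :=
  ∀ x : V, ENNReal.ofReal (θ * L) ≤ volume {t : ℝ | t ∈ Set.Icc 0 L ∧ x + t • ω ∈ E}

/-- The geometric control condition with parameters `L` and `θ`: every segment of length `L`
meets `E` in a set of one-dimensional Lebesgue measure at least `θ L`. -/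
def GCC {V : Type*} [NormedAddCommGroup V] [InnerProductSpace ℝ V]
    (E : Set V) (L θ : ℝ) : Prop :=
  ∀ ω : V, ‖ω‖ = 1 → ThickAlong E L θ ω

variable {V : Type*} [NormedAddCommGroup V] [InnerProductSpace ℝ V] [FiniteDimensional ℝ V]
  [MeasurableSpace V] [BorelSpace V]

variable (V) in
/-- The Hilbert space `L²(V)` of complex valued functions, with respect to Lebesgue measure. -/
abbrev L2 : Type _ := Lp (α := V) ℂ 2 volume

/-- The Fourier transform of `f` vanishes almost everywhere outside `S`. -/
def SpectrumIn (f : L2 V) (S : Set V) : Prop :=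
  ∀ᵐ ξ : V, (𝓕 f : L2 V) ξ ≠ 0 → ξ ∈ S

/-- The inequality `‖f‖_{L²(V)} ≤ C ‖f‖_{L²(E)}`. -/
def Controlled (E : Set V) (C : ℝ) (f : L2 V) : Prop :=
  eLpNorm f 2 volume ≤ ENNReal.ofReal C * eLpNorm f 2 (volume.restrict E)

end Helper77.TA
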