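import Pool.Agent.Helper77.TA.Main
import Pool.Agent.Helper77.TA.Defs

open MeasureTheory Filter Topology Real Metric FourierTransform
open scoped ENNReal NNReal InnerProductSpace

namespace Helper77.TA

variable {V : Type*} [NormedAddCommGroup V] [InnerProductSpace ℝ V] [FiniteDimensional ℝ V]
  [MeasurableSpace V] [BorelSpace V]

/-- A null set meets almost every line in a null set. -/
theorem null_section {N : Set V} (hN : volume N = 0) (ω : V) :
    ∀ᵐ x : V, ∀ᵐ t : ℝ, x + t • ω ∉ N := by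
  set N' := toMeasurable volume N with hN'
  have h0 : volume N' = 0 := by rw [hN', measure_toMeasurable, hN]
  have hm : MeasurableSet N' := measurableSet_toMeasurable _ _
  have hmeas : Measurable fun q : V × ℝ => q.1 + q.2 • ω :=
    measurable_fst.add (measurable_snd.smul_const ω)
  have hp : MeasurableSet {q : V × ℝ | q.1 + q.2 • ω ∉ N'} := (hmeas hm).compl
  have h1 : ∀ᵐ x : V, ∀ᵐ t : ℝ, x + t • ω ∉ N' := by
    rw [Measure.ae_ae_comm hp]
    refine Eventually.of_forall fun t => ?_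
    have : volume ((fun x : V => x + t • ω) ⁻¹' N') = 0 := by
      rw [measure_preimage_add_right, h0]
    rw [ae_iff]
    simp only [not_not]
    exact this
  filter_upwards [h1] with x hx
  filter_upwards [hx] with t ht h
  exact ht (subset_toMeasurable volume N h)

theorem measurable_section {E : Set V} (hE : MeasurableSet E) (L : ℝ) (ω : V) :
    Measurable fun x : V => volume {t : ℝ | t ∈ Set.Icc 0 L ∧ x + t • ω ∈ E} := by
  have hmeas : Measurable fun q : V × ℝ => q.1 + q.2 • ω :=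
    measurable_fst.add (measurable_snd.smul_const ω)
  have hp : MeasurableSet {q : V × ℝ | q.2 ∈ Set.Icc 0 L ∧ q.1 + q.2 • ω ∈ E} :=
    (measurable_snd measurableSet_Icc).inter (hmeas hE)
  exact measurable_measure_prodMk_left hp

theorem thick_to_angle {E : Set V} (hE : MeasurableSet E) {L θ a : ℝ} (hL : 0 < L) (ha : 0 < a)
    (haθ : a < θ) {ω : V}
    (h : ∀ᵐ x, ENNReal.ofReal (θ * L) ≤ volume {t : ℝ | t ∈ Set.Icc 0 L ∧ x + t • ω ∈ E}) :
    ∀ᵐ x, a ≤ angle.real {t | x - bdry (2 * L * θ / (θ - a)) t • ω ∈ E} := by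
  set N : Set V := {x | ¬ ENNReal.ofReal (θ * L) ≤
    volume {t : ℝ | t ∈ Set.Icc 0 L ∧ x + t • ω ∈ E}} with hN
  have hN0 : volume N = 0 := h
  filter_upwards [null_section hN0 ω] with x hx
  have hm : Measurable fun t : ℝ => x - t • ω := measurable_const.sub (measurable_id.smul_const ω)
  have hA : MeasurableSet {t : ℝ | x - t • ω ∈ E} := hm hE
  refine angle_density_ge hL ha haθ hA ?_
  have hq : Measure.QuasiMeasurePreserving (fun s : ℝ => -L - s) volume volume :=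
    (Measure.measurePreserving_sub_left volume (-L)).quasiMeasurePreserving
  filter_upwards [hq.ae hx] with s hs
  have hs' : ENNReal.ofReal (θ * L) ≤
      volume {t : ℝ | t ∈ Set.Icc 0 L ∧ (x + (-L - s) • ω) + t • ω ∈ E} := by
    by_contra hcon
    exact hs hcon
  refine hs'.trans ?_
  have e1 : {t : ℝ | t ∈ Set.Icc 0 L ∧ (x + (-L - s) • ω) + t • ω ∈ E} =
      (fun t : ℝ => (s + L) - t) ⁻¹' ({t : ℝ | x - t • ω ∈ E} ∩ Set.Icc s (s + L)) := by
    ext t
    simp only [Set.mem_preimage, Set.mem_inter_iff, Set.mem_Icc, Set.mem_ofPred_eq]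
    have e2 : (x + (-L - s) • ω) + t • ω = x - ((s + L) - t) • ω := by
      rw [sub_smul, sub_smul, add_smul, neg_smul]; abel
    rw [e2]
    constructor
    · rintro ⟨⟨h1, h2⟩, h3⟩
      exact ⟨h3, by linarith, by linarith⟩
    · rintro ⟨h3, h1, h2⟩
      exact ⟨⟨by linarith, by linarith⟩, h3⟩
  rw [e1, (Measure.measurePreserving_sub_left volume (s + L)).measure_preimage
    (hA.inter measurableSet_Icc).nullMeasurableSet]

/-- The cap inequality for a square integrable function. -/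
theorem caps_general {ι : Type*} [Fintype ι]
    (ω : ι → V) (hω : ∀ j, ‖ω j‖ = 1) {ρ c₀ : ℝ}
    {E : Set V} (hE : MeasurableSet E) {y a : ℝ} (hy : 0 < y) (ha0 : 0 < a) (ha1 : a < 1)
    (hd : ∀ j, ∀ᵐ x, a ≤ angle.real {θ | x - bdry y θ • ω j ∈ E})
    (f : Lp (α := V) ℂ 2)
    (hf : ∀ᵐ ξ, ((𝓕 f : Lp (α := V) ℂ 2) : V → ℂ) ξ ≠ 0 → ‖ξ‖ ≤ ρ ∧ ∃ j, ρ - c₀ ≤ ⟪ξ, ω j⟫_ℝ) :
    eLpNorm f 2 volume ≤ ENNReal.ofReal ((Fintype.card ι * exp (1 + 4 * π * y * c₀)) ^ (1 / (2 * a)))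
      * eLpNorm f 2 (volume.restrict E) := by
  set P : Set V := {ξ | ‖ξ‖ ≤ ρ ∧ ∃ j, ρ - c₀ ≤ ⟪ξ, ω j⟫_ℝ} with hP
  have hPm : MeasurableSet P := by
    have h1 : IsClosed {ξ : V | ‖ξ‖ ≤ ρ} := isClosed_le continuous_norm continuous_const
    have h2 : IsClosed {ξ : V | ∃ j, ρ - c₀ ≤ ⟪ξ, ω j⟫_ℝ} := by
      have : {ξ : V | ∃ j, ρ - c₀ ≤ ⟪ξ, ω j⟫_ℝ} = ⋃ j, {ξ : V | ρ - c₀ ≤ ⟪ξ, ω j⟫_ℝ} := by
        ext ξ; simp
      rw [this]
      exact isClosed_iUnion_of_finite fun j => isClosed_le continuous_const (by fun_prop)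
    exact (h1.inter h2).measurableSet
  have hPb : P ⊆ closedBall 0 ρ := by
    intro ξ hξ
    simpa using hξ.1
  have hPfin : volume P ≠ ∞ := ((measure_mono hPb).trans_lt measure_closedBall_lt_top).ne
  set g₀ : V → ℂ := ((𝓕 f : Lp (α := V) ℂ 2 volume) : V → ℂ) with hg₀
  set g : V → ℂ := P.indicator g₀ with hg
  have hgae : g =ᵐ[volume] g₀ := by
    filter_upwards [hf] with ξ hξ
    by_cases h0 : g₀ ξ = 0
    · rw [hg, h0, Set.indicator_apply_eq_zero]
      intro _; exact h0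
    · rw [hg, Set.indicator_of_mem]
      exact hξ h0
  have h2' : MemLp g₀ 2 := Lp.memLp _
  have h2 : MemLp g 2 := h2'.indicator hPm
  have h1 : Integrable g := by
    rw [hg, integrable_indicator_iff hPm]
    have h3 : MemLp g₀ 2 (volume.restrict P) := h2'.restrict P
    have : IsFiniteMeasure (volume.restrict P) := ⟨by simpa using hPfin.lt_top⟩
    exact h3.integrable (by norm_num)
  have hgP : ∀ ξ, g ξ ≠ 0 → ξ ∈ P := by
    intro ξ hξ
    by_contra hcon
    exact hξ (by rw [hg, Set.indicator_of_notMem hcon])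
  have key := caps_aux h1 h2 ω hω (ρ := ρ) (c₀ := c₀) (fun ξ hξ => (hgP ξ hξ).1)
    (fun ξ hξ => (hgP ξ hξ).2) hE hy ha0 ha1 hd
  have hFf : (f : V → ℂ) =ᵐ[volume] 𝓕⁻ g := by
    have e1 : h2.toLp g = (𝓕 f : Lp (α := V) ℂ 2 volume) := by
      apply Lp.ext
      exact h2.coeFn_toLp.trans hgae
    have e2 := fourierInv_toLp_ae h1 h2
    rw [e1] at e2
    have e3 : (𝓕⁻ (𝓕 f : Lp (α := V) ℂ 2 volume) : Lp (α := V) ℂ 2 volume) = f :=
      FourierTransform.fourierInv_fourier_eq f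
    rw [e3] at e2
    exact e2
  rw [← plancherel h1 h2] at key
  have hXfin : ∫⁻ x, ‖𝓕⁻ g x‖ₑ ^ 2 ≠ ∞ := by
    rw [plancherel h1 h2]
    have e3 := eLpNorm_nnreal_pow_eq_lintegral (f := g) (p := 2) (μ := (volume : Measure V))
      two_ne_zero
    norm_num at e3
    rw [← e3]
    exact ENNReal.pow_ne_top h2.eLpNorm_ne_top
  have key2 := absorb ha0 ha1 hXfin key
  have e4 := eLpNorm_nnreal_pow_eq_lintegral (f := 𝓕⁻ g) (p := 2) (μ := (volume : Measure V))
    two_ne_zero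
  have e5 := eLpNorm_nnreal_pow_eq_lintegral (f := 𝓕⁻ g) (p := 2)
    (μ := (volume.restrict E : Measure V)) two_ne_zero
  norm_num at e4 e5
  rw [← e4, ← e5] at key2
  have e6 : eLpNorm f 2 volume = eLpNorm (𝓕⁻ g) 2 volume := eLpNorm_congr_ae hFf
  have e7 : eLpNorm f 2 (volume.restrict E) = eLpNorm (𝓕⁻ g) 2 (volume.restrict E) :=
    eLpNorm_congr_ae (ae_restrict_of_ae hFf)
  rw [e6, e7]
  set B : ℝ := Fintype.card ι * exp (1 + 4 * π * y * c₀) with hB
  have hB0 : 0 ≤ B := by positivity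
  have e8 : ENNReal.ofReal (B ^ (1 / (2 * a))) ^ 2 = ENNReal.ofReal B ^ (1 / a) := by
    rw [← ENNReal.ofReal_rpow_of_nonneg hB0 (by positivity), ← ENNReal.rpow_natCast,
      ← ENNReal.rpow_mul]
    congr 1
    push_cast
    field_simp
  have e9 : eLpNorm (𝓕⁻ g) 2 volume ^ 2 ≤
      (ENNReal.ofReal (B ^ (1 / (2 * a))) * eLpNorm (𝓕⁻ g) 2 (volume.restrict E)) ^ 2 := by
    rw [mul_pow, e8]
    exact key2
  exact (ENNReal.pow_le_pow_left_iff two_ne_zero).mp e9

/-- The cap inequality under thickness along the lines in the cap directions. -/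
theorem caps_thick {ι : Type*} [Fintype ι]
    (ω : ι → V) (hω : ∀ j, ‖ω j‖ = 1) {ρ c₀ : ℝ}
    {E : Set V} (hE : NullMeasurableSet E) {L θ a : ℝ} (hL : 0 < L) (ha : 0 < a)
    (haθ : a < θ) (hθ : θ ≤ 1) (hthick : ∀ j, ThickAlong E L θ (ω j))
    (f : Lp (α := V) ℂ 2)
    (hf : ∀ᵐ ξ, ((𝓕 f : Lp (α := V) ℂ 2) : V → ℂ) ξ ≠ 0 → ‖ξ‖ ≤ ρ ∧ ∃ j, ρ - c₀ ≤ ⟪ξ, ω j⟫_ℝ) :
    eLpNorm f 2 volume ≤
      ENNReal.ofReal ((Fintype.card ι * exp (1 + 8 * π * L * θ * c₀ / (θ - a))) ^ (1 / (2 * a)))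
      * eLpNorm f 2 (volume.restrict E) := by
  obtain ⟨E', hE'E, hE', hae⟩ := hE.exists_measurable_subset_ae_eq
  have hδ : 0 < θ - a := by linarith
  have hθ0 : 0 < θ := ha.trans haθ
  have hnull : volume (E \ E') = 0 := by
    have := (ae_le_set.mp hae.symm.le)
    exact this
  have hd : ∀ j, ∀ᵐ x, a ≤ angle.real {t | x - bdry (2 * L * θ / (θ - a)) t • ω j ∈ E'} := by
    intro j
    apply thick_to_angle hE' hL ha haθ
    filter_upwards [null_section hnull (ω j)] with x hx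
    refine (hthick j x).trans ?_
    apply measure_mono_ae
    filter_upwards [hx] with t ht h
    refine ⟨h.1, ?_⟩
    by_contra hcon
    exact ht ⟨h.2, hcon⟩
  have key := caps_general ω hω hE' (y := 2 * L * θ / (θ - a)) (by positivity) ha
    (haθ.trans_le hθ) hd f hf
  rw [Measure.restrict_congr_set hae] at key
  have e1 : 1 + 4 * π * (2 * L * θ / (θ - a)) * c₀ = 1 + 8 * π * L * θ * c₀ / (θ - a) := by
    field_simp
    ring
  rw [e1] at key
  exact key

end Helper77.TA
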