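import Pool.Agent.Helper77.TA.HalfPlane

open MeasureTheory Filter Topology Real Metric
open scoped ENNReal NNReal

namespace Helper77.TA

/-- The Poisson (Cauchy) density at height `y`. -/
noncomputable def pk (y t : ℝ) : ℝ := π⁻¹ * y * (t ^ 2 + y ^ 2)⁻¹

theorem measurable_pk (y : ℝ) : Measurable (pk y) := by
  unfold pk
  fun_prop

theorem pk_nonneg {y : ℝ} (hy : 0 < y) (t : ℝ) : 0 ≤ pk y t := by
  unfold pk
  positivity

theorem lintegral_pk {y : ℝ} (hy : 0 < y) : ∫⁻ t, ENNReal.ofReal (pk y t) = 1 := by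
  have h := ProbabilityTheory.lintegral_cauchyPDF_eq_one 0 (γ := y.toNNReal)
    (by simpa using hy)
  rw [← h]
  congr 1
  ext t
  rw [ProbabilityTheory.cauchyPDF_def, ProbabilityTheory.cauchyPDFReal_def, pk,
    Real.coe_toNNReal y hy.le, sub_zero]

/-- The angle parameter of the boundary point `t`. -/
noncomputable def ang (y t : ℝ) : ℝ := π + 2 * arctan (t / y)

theorem ang_mem {y : ℝ} (t : ℝ) : ang y t ∈ Set.Ioo (0 : ℝ) (2 * π) := by
  have h1 := neg_pi_div_two_lt_arctan (t / y)
  have h2 := arctan_lt_pi_div_two (t / y)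
  unfold ang
  constructor <;> linarith

theorem bdry_ang {y : ℝ} (hy : 0 < y) (t : ℝ) : bdry y (ang y t) = t := by
  unfold bdry ang
  set β := arctan (t / y) with hβ
  have h1 : sin (π + 2 * β) = -(2 * sin β * cos β) := by
    rw [add_comm, sin_add_pi, sin_two_mul]
  have h2 : cos (π + 2 * β) = -(2 * cos β ^ 2 - 1) := by
    rw [add_comm, cos_add_pi, cos_two_mul]
  have h3 : 0 < cos β := cos_arctan_pos _
  have h4 : tan β = t / y := tan_arctan _
  rw [tan_eq_sin_div_cos, div_eq_div_iff h3.ne' hy.ne'] at h4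
  rw [h1, h2, div_eq_iff (by nlinarith [sq_nonneg (cos β), pow_pos h3 2])]
  linear_combination 2 * cos β * h4

theorem hasDerivAt_ang {y : ℝ} (hy : 0 < y) (t : ℝ) :
    HasDerivAt (ang y) (2 * π * pk y t) t := by
  unfold ang
  have h1 : HasDerivAt (fun t : ℝ => t / y) (1 / y) t := (hasDerivAt_id t).div_const y
  have h2 := (h1.arctan.const_mul 2).const_add π
  convert! h2 using 1
  unfold pk
  have : t ^ 2 + y ^ 2 ≠ 0 := by positivity
  have hπ := Real.pi_pos.ne'
  field_simp
  ring

theorem angle_preimage_ge {y : ℝ} (hy : 0 < y) {A : Set ℝ} (hA : MeasurableSet A) :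
    ∫⁻ t in A, ENNReal.ofReal (pk y t) ≤ angle (bdry y ⁻¹' A) := by
  have hinj : Set.InjOn (ang y) A := by
    intro s _ t _ h
    rw [← bdry_ang hy s, ← bdry_ang hy t, h]
  have h1 := lintegral_image_eq_lintegral_abs_deriv_mul hA
    (fun t _ => (hasDerivAt_ang hy t).hasDerivWithinAt) hinj (fun _ => 1)
  simp only [lintegral_one, mul_one, Measure.restrict_apply MeasurableSet.univ, Set.univ_inter]
    at h1
  have h2 : ang y '' A ⊆ bdry y ⁻¹' A ∩ Set.Ioc 0 (2 * π) := by
    rintro _ ⟨t, ht, rfl⟩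
    refine ⟨?_, Set.Ioo_subset_Ioc_self (ang_mem t)⟩
    rw [Set.mem_preimage, bdry_ang hy]
    exact ht
  have h3 : ∫⁻ t in A, ENNReal.ofReal |2 * π * pk y t| =
      ENNReal.ofReal (2 * π) * ∫⁻ t in A, ENNReal.ofReal (pk y t) := by
    rw [← lintegral_const_mul _ (measurable_pk y).ennreal_ofReal]
    congr 1
    ext t
    rw [abs_of_nonneg (by have := pk_nonneg hy t; positivity), ENNReal.ofReal_mul (by positivity)]
  rw [h3] at h1
  have h4 : ENNReal.ofReal (2 * π) * ∫⁻ t in A, ENNReal.ofReal (pk y t) ≤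
      volume (bdry y ⁻¹' A ∩ Set.Ioc 0 (2 * π)) := by
    rw [← h1]; exact measure_mono h2
  have h5 : (0 : ℝ) < 2 * π := by positivity
  rw [angle, Measure.smul_apply, Measure.restrict_apply (measurable_bdry y hA), smul_eq_mul]
  calc ∫⁻ t in A, ENNReal.ofReal (pk y t)
      = ENNReal.ofReal (2 * π)⁻¹ * (ENNReal.ofReal (2 * π) *
          ∫⁻ t in A, ENNReal.ofReal (pk y t)) := by
        rw [← mul_assoc, ← ENNReal.ofReal_mul (by positivity), inv_mul_cancel₀ h5.ne',
          ENNReal.ofReal_one, one_mul]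
    _ ≤ _ := by gcongr

theorem pk_compare {y L s t : ℝ} (hy : 0 < y) (hL : 0 ≤ L) (h1 : s ≤ t) (h2 : t ≤ s + L) :
    pk y s ≤ (1 + L / y + (L / y) ^ 2) * pk y t := by
  unfold pk
  have hs : 0 < s ^ 2 + y ^ 2 := by positivity
  have ht : 0 < t ^ 2 + y ^ 2 := by positivity
  have key : t ^ 2 + y ^ 2 ≤ (1 + L / y + (L / y) ^ 2) * (s ^ 2 + y ^ 2) := by
    set u := L / y with hu
    have hLu : L = u * y := by rw [hu]; field_simp
    have hu0 : 0 ≤ u := by positivity
    have h3 : t ^ 2 ≤ s ^ 2 + 2 * |s| * L + L ^ 2 := by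
      have h4 : 0 ≤ t - s := by linarith
      have h5 : t - s ≤ L := by linarith
      have h6 : s ≤ |s| := le_abs_self s
      have h7 : 0 ≤ |s| := abs_nonneg s
      have h8 : t ^ 2 = s ^ 2 + 2 * s * (t - s) + (t - s) ^ 2 := by ring
      have h9 : s * (t - s) ≤ |s| * L :=
        (mul_le_mul_of_nonneg_right h6 h4).trans (mul_le_mul_of_nonneg_left h5 h7)
      have h10 : (t - s) ^ 2 ≤ L ^ 2 := by gcongr
      nlinarith
    have h11 : 2 * |s| * y ≤ s ^ 2 + y ^ 2 := by
      have := sq_abs s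
      nlinarith [sq_nonneg (|s| - y)]
    have h12 : 2 * |s| * L ≤ u * (s ^ 2 + y ^ 2) := by
      rw [hLu]
      nlinarith
    have h13 : L ^ 2 ≤ u ^ 2 * (s ^ 2 + y ^ 2) := by
      rw [hLu, mul_pow]
      nlinarith [sq_nonneg (u * s)]
    nlinarith
  have h14 : (s ^ 2 + y ^ 2)⁻¹ ≤ (1 + L / y + (L / y) ^ 2) * (t ^ 2 + y ^ 2)⁻¹ := by
    rw [inv_eq_one_div, inv_eq_one_div, mul_one_div, div_le_div_iff₀ hs ht]
    linarith
  have h15 : 0 ≤ π⁻¹ * y := by positivity
  calc π⁻¹ * y * (s ^ 2 + y ^ 2)⁻¹ ≤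
      π⁻¹ * y * ((1 + L / y + (L / y) ^ 2) * (t ^ 2 + y ^ 2)⁻¹) :=
        mul_le_mul_of_nonneg_left h14 h15
    _ = _ := by ring

/-- Lower bound of the Poisson density of a set which is dense at scale `L`. -/
theorem density_ge {y L θ : ℝ} (hy : 0 < y) (hL : 0 < L) (_hθ : 0 ≤ θ) {A : Set ℝ}
    (_hA : MeasurableSet A)
    (hd : ∀ᵐ s, ENNReal.ofReal (θ * L) ≤ volume (A ∩ Set.Icc s (s + L))) :
    ENNReal.ofReal θ ≤ ENNReal.ofReal (1 + L / y + (L / y) ^ 2) *
      ∫⁻ t in A, ENNReal.ofReal (pk y t) := by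
  set q : ℝ := 1 + L / y + (L / y) ^ 2 with hq
  have hq0 : 0 ≤ q := by positivity
  have hpkm : Measurable fun t => ENNReal.ofReal (pk y t) := (measurable_pk y).ennreal_ofReal
  set f : ℝ → ℝ → ℝ≥0∞ := fun s t =>
    (Set.Icc s (s + L)).indicator (fun t => ENNReal.ofReal q * ENNReal.ofReal (pk y t)) t with hf
  have e1 : ENNReal.ofReal (θ * L) ≤
      ∫⁻ s, ∫⁻ t in A, f s t := by
    calc ENNReal.ofReal (θ * L) = ENNReal.ofReal (θ * L) * ∫⁻ s, ENNReal.ofReal (pk y s) := by
          rw [lintegral_pk hy, mul_one]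
      _ = ∫⁻ s, ENNReal.ofReal (θ * L) * ENNReal.ofReal (pk y s) := by
          rw [lintegral_const_mul _ hpkm]
      _ ≤ ∫⁻ s, ∫⁻ t in A, f s t := by
          apply lintegral_mono_ae
          filter_upwards [hd] with s hs
          calc ENNReal.ofReal (θ * L) * ENNReal.ofReal (pk y s) ≤
              volume (A ∩ Set.Icc s (s + L)) * ENNReal.ofReal (pk y s) := by
                gcongr
            _ = ∫⁻ t in A, (Set.Icc s (s + L)).indicator
                  (fun _ => ENNReal.ofReal (pk y s)) t := by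
                rw [lintegral_indicator measurableSet_Icc, setLIntegral_const,
                  Measure.restrict_apply measurableSet_Icc, Set.inter_comm, mul_comm]
            _ ≤ ∫⁻ t in A, f s t := by
                apply lintegral_mono
                intro t
                simp only [hf]
                by_cases ht : t ∈ Set.Icc s (s + L)
                · rw [Set.indicator_of_mem ht, Set.indicator_of_mem ht,
                    ← ENNReal.ofReal_mul hq0]
                  exact ENNReal.ofReal_le_ofReal (pk_compare hy hL.le ht.1 ht.2)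
                · rw [Set.indicator_of_notMem ht, Set.indicator_of_notMem ht]
  have hfm : AEMeasurable (Function.uncurry f) (volume.prod (volume.restrict A)) := by
    apply Measurable.aemeasurable
    have h1 : MeasurableSet {p : ℝ × ℝ | p.1 ≤ p.2 ∧ p.2 ≤ p.1 + L} := by
      apply MeasurableSet.inter
      · exact measurableSet_le measurable_fst measurable_snd
      · exact measurableSet_le measurable_snd (measurable_fst.add_const L)
    have h2 : Function.uncurry f = {p : ℝ × ℝ | p.1 ≤ p.2 ∧ p.2 ≤ p.1 + L}.indicator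
        (fun p => ENNReal.ofReal q * ENNReal.ofReal (pk y p.2)) := by
      ext ⟨s, t⟩
      simp only [Function.uncurry_apply_pair, hf, Set.indicator, Set.mem_Icc, Set.mem_ofPred_eq]
    rw [h2]
    exact ((hpkm.comp measurable_snd).const_mul _).indicator h1
  rw [lintegral_lintegral_swap hfm] at e1
  have e2 : ∀ t, ∫⁻ s, f s t = ENNReal.ofReal L *
      (ENNReal.ofReal q * ENNReal.ofReal (pk y t)) := by
    intro t
    have h1 : ∀ s, f s t = (Set.Icc (t - L) t).indicator
        (fun _ => ENNReal.ofReal q * ENNReal.ofReal (pk y t)) s := by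
      intro s
      simp only [hf, Set.indicator, Set.mem_Icc]
      have : (s ≤ t ∧ t ≤ s + L) ↔ (t - L ≤ s ∧ s ≤ t) := by
        constructor
        · rintro ⟨h1, h2⟩; constructor <;> linarith
        · rintro ⟨h1, h2⟩; constructor <;> linarith
      simp only [this]
    simp_rw [h1]
    rw [lintegral_indicator measurableSet_Icc, setLIntegral_const, Real.volume_Icc,
      sub_sub_cancel, mul_comm]
  simp_rw [e2] at e1
  rw [lintegral_const_mul _ (hpkm.const_mul _), lintegral_const_mul _ hpkm, mul_comm θ L,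
    ENNReal.ofReal_mul hL.le] at e1
  exact (ENNReal.mul_le_mul_iff_right (by simpa using hL) ENNReal.ofReal_ne_top).mp e1

/-- The angle measure of a set which is dense at scale `L`, at height `y = 2 L θ / (θ - a)`. -/
theorem angle_density_ge {L θ a : ℝ} (hL : 0 < L) (ha : 0 < a) (haθ : a < θ) {A : Set ℝ}
    (hA : MeasurableSet A)
    (hd : ∀ᵐ s, ENNReal.ofReal (θ * L) ≤ volume (A ∩ Set.Icc s (s + L))) :
    a ≤ angle.real (bdry (2 * L * θ / (θ - a)) ⁻¹' A) := by
  set y := 2 * L * θ / (θ - a) with hy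
  have hθ : 0 < θ := ha.trans haθ
  have hδ : 0 < θ - a := by linarith
  have hy0 : 0 < y := by positivity
  have h1 := density_ge hy0 hL hθ.le hA hd
  have h2 := angle_preimage_ge hy0 hA
  set u := L / y with hu
  have hu1 : u = (θ - a) / (2 * θ) := by
    rw [hu, hy]; field_simp
  have hu0 : 0 < u := by positivity
  have hu2 : u ≤ 1 / 2 := by
    rw [hu1, div_le_div_iff₀ (by positivity) (by positivity)]
    linarith
  have h3 : ENNReal.ofReal θ ≤ ENNReal.ofReal (1 + u + u ^ 2) *
      ENNReal.ofReal (angle.real (bdry y ⁻¹' A)) := by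
    rw [measureReal_def, ENNReal.ofReal_toReal (measure_ne_top _ _)]
    exact h1.trans (by gcongr)
  rw [← ENNReal.ofReal_mul (by positivity),
    ENNReal.ofReal_le_ofReal_iff (by positivity)] at h3
  by_contra hcon
  push Not at hcon
  have h4 : θ < (1 + u + u ^ 2) * a := by
    refine h3.trans_lt ?_
    exact mul_lt_mul_of_pos_left hcon (by positivity)
  have h5 : u * (2 * θ) = θ - a := by rw [hu1]; field_simp
  have h6 : (1 + u + u ^ 2) * a ≤ (1 + 3 / 2 * u) * a := by
    apply mul_le_mul_of_nonneg_right _ ha.le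
    nlinarith
  have h7 : u * a ≤ u * θ := mul_le_mul_of_nonneg_left haθ.le hu0.le
  nlinarith

end Helper77.TA
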