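import Mathlib

open MeasureTheory Filter Topology Real Metric Module
open scoped ENNReal NNReal InnerProductSpace

namespace Helper77.TA

variable {V : Type*} [NormedAddCommGroup V] [InnerProductSpace ℝ V] [FiniteDimensional ℝ V]
  [MeasurableSpace V] [BorelSpace V]

/-- A `δ`-separated set of unit vectors has at most `n 4ⁿ δ^{-(n-1)}` elements. -/
theorem card_separated {n : ℕ} (hn : finrank ℝ V = n + 1) {δ : ℝ} (hδ : 0 < δ) (hδ1 : δ ≤ 1)
    (s : Finset V) (h1 : ∀ v ∈ s, ‖v‖ = 1) (h2 : ∀ v ∈ s, ∀ w ∈ s, v ≠ w → δ ≤ dist v w) :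
    (s.card : ℝ) * δ ^ n ≤ (n + 1) * 4 ^ (n + 1) := by
  have hnt : Nontrivial V := by
    apply Module.nontrivial_of_finrank_pos (R := ℝ)
    omega
  set μ : Measure V := volume with hμ
  set b : ℝ := μ.real (ball 0 1) with hb
  have hbpos : 0 < b := by
    rw [hb, measureReal_def]
    exact ENNReal.toReal_pos (measure_ball_pos _ _ one_pos).ne' measure_ball_lt_top.ne
  have hball : ∀ (v : V) (r : ℝ), 0 ≤ r → μ.real (ball v r) = r ^ (n + 1) * b := by
    intro v r hr
    rw [measureReal_def, Measure.addHaar_ball μ v hr, ENNReal.toReal_mul,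
      ENNReal.toReal_ofReal (by positivity), hn, hb, measureReal_def]
  have hdisj : Set.PairwiseDisjoint (s : Set V) (fun v => ball v (δ / 2)) := by
    intro v hv w hw hvw
    apply ball_disjoint_ball
    have := h2 v hv w hw hvw
    linarith
  have hsub : (⋃ v ∈ s, ball v (δ / 2)) ⊆ closedBall (0 : V) (1 + δ / 2) \ ball 0 (1 - δ / 2) := by
    intro x hx
    simp only [Set.mem_iUnion] at hx
    obtain ⟨v, hv, hxv⟩ := hx
    rw [mem_ball, dist_eq_norm] at hxv
    have hv1 := h1 v hv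
    have e1 := norm_sub_norm_le x v
    have e2 := norm_sub_norm_le v x
    rw [norm_sub_rev] at e2
    simp only [Set.mem_sdiff, mem_closedBall, dist_zero_right, mem_ball, not_lt]
    constructor <;> linarith
  have e1 : μ.real (⋃ v ∈ s, ball v (δ / 2)) = s.card * ((δ / 2) ^ (n + 1) * b) := by
    rw [measureReal_biUnion_finset hdisj (fun _ _ => measurableSet_ball)]
    have : ∀ v ∈ s, μ.real (ball v (δ / 2)) = (δ / 2) ^ (n + 1) * b := by
      intro v _
      rw [hball v _ (by positivity)]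
    rw [Finset.sum_congr rfl this, Finset.sum_const, nsmul_eq_mul]
  have e2 : μ.real (closedBall (0 : V) (1 + δ / 2) \ ball 0 (1 - δ / 2)) =
      ((1 + δ / 2) ^ (n + 1) - (1 - δ / 2) ^ (n + 1)) * b := by
    rw [measureReal_sdiff (h₁ := measure_closedBall_lt_top.ne), hball _ _ (by linarith),
      Measure.addHaar_real_closedBall μ _ (by positivity), hn, sub_mul]
    · intro x hx
      rw [mem_ball] at hx
      rw [mem_closedBall]
      linarith
    · exact measurableSet_ball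
  have e3 : μ.real (⋃ v ∈ s, ball v (δ / 2)) ≤
      μ.real (closedBall (0 : V) (1 + δ / 2) \ ball 0 (1 - δ / 2)) := by
    exact measureReal_mono hsub
      ((measure_mono Set.sdiff_subset).trans_lt measure_closedBall_lt_top).ne
  rw [e1, e2, ← mul_assoc, mul_le_mul_iff_left₀ hbpos] at e3
  have e4 : (1 + δ / 2) ^ (n + 1) - (1 - δ / 2) ^ (n + 1) ≤ δ * ((n + 1) * 2 ^ n) := by
    have := abs_pow_sub_pow_le (1 + δ / 2) (1 - δ / 2) (n + 1)
    have h3 : |(1 + δ / 2) - (1 - δ / 2)| = δ := by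
      rw [show (1 + δ / 2) - (1 - δ / 2) = δ by ring, abs_of_pos hδ]
    have h4 : max |1 + δ / 2| |1 - δ / 2| ≤ 2 := by
      rw [max_le_iff, abs_of_pos (by positivity), abs_of_nonneg (by linarith)]
      constructor <;> linarith
    rw [h3] at this
    refine (le_abs_self _).trans (this.trans ?_)
    rw [mul_assoc]
    rw [Nat.add_sub_cancel]
    push_cast
    have h5 : 0 ≤ max |1 + δ / 2| |1 - δ / 2| := le_max_of_le_left (abs_nonneg _)
    gcongr
  have e5 : (s.card : ℝ) * (δ / 2) ^ (n + 1) = (s.card * δ ^ n) * (δ / 2 ^ (n + 1)) := by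
    rw [div_pow]; ring
  rw [e5] at e3
  have e6 : (s.card * δ ^ n) * (δ / 2 ^ (n + 1)) ≤ δ * ((n + 1) * 2 ^ n) := e3.trans e4
  have e7 : (s.card * δ ^ n) * (δ / 2 ^ (n + 1)) * 2 ^ (n + 1) / δ = s.card * δ ^ n := by
    field_simp
  have e8 : (s.card : ℝ) * δ ^ n ≤ δ * ((n + 1) * 2 ^ n) * 2 ^ (n + 1) / δ := by
    rw [← e7]
    gcongr
  refine e8.trans ?_
  have e9 : δ * ((n + 1) * 2 ^ n) * 2 ^ (n + 1) / δ = (n + 1) * (2 ^ n * 2 ^ (n + 1)) := by
    field_simp
  rw [e9]
  have e10 : (4 : ℝ) ^ (n + 1) = 2 * (2 ^ n * 2 ^ (n + 1)) := by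
    rw [show (4 : ℝ) = 2 * 2 by norm_num, mul_pow]; ring
  rw [e10]
  have h6 : (0 : ℝ) < 2 ^ n * 2 ^ (n + 1) := by positivity
  have h7 : (0 : ℝ) ≤ (n : ℝ) + 1 := by positivity
  exact mul_le_mul_of_nonneg_left (by linarith) h7

/-- A `δ`-net of the unit sphere with at most `C δ^{-(n-1)}` elements. -/
theorem exists_net {n : ℕ} (hn : finrank ℝ V = n + 1) {δ : ℝ} (hδ : 0 < δ) (hδ1 : δ ≤ 1) :
    ∃ s : Finset V, (∀ v ∈ s, ‖v‖ = 1) ∧ (s.card : ℝ) * δ ^ n ≤ (n + 1) * 4 ^ (n + 1) ∧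
      ∀ u : V, ‖u‖ = 1 → ∃ v ∈ s, dist u v < δ := by
  classical
  let P : ℕ → Prop := fun k => ∃ s : Finset V, s.card = k ∧ (∀ v ∈ s, ‖v‖ = 1) ∧
    (∀ v ∈ s, ∀ w ∈ s, v ≠ w → δ ≤ dist v w)
  obtain ⟨N, hN⟩ := exists_nat_ge (((n : ℝ) + 1) * 4 ^ (n + 1) / δ ^ n)
  have hbd : ∀ k, P k → k ≤ N := by
    rintro k ⟨s, hk, h1, h2⟩
    have := card_separated hn hδ hδ1 s h1 h2
    rw [← le_div_iff₀ (by positivity)] at this
    rw [← hk]
    exact_mod_cast this.trans hN
  have hP0 : P 0 := ⟨∅, rfl, by simp, by simp⟩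
  obtain ⟨s, hk, h1, h2⟩ : P (Nat.findGreatest P N) := Nat.findGreatest_spec (Nat.zero_le N) hP0
  refine ⟨s, h1, card_separated hn hδ hδ1 s h1 h2, ?_⟩
  intro u hu
  by_contra hcon
  push Not at hcon
  have hus : u ∉ s := by
    intro h
    have := hcon u h
    rw [dist_self] at this
    linarith
  have hP : P (s.card + 1) := by
    refine ⟨insert u s, Finset.card_insert_of_notMem hus, ?_, ?_⟩
    · intro v hv
      rcases Finset.mem_insert.mp hv with rfl | hv
      · exact hu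
      · exact h1 v hv
    · intro v hv w hw hvw
      rcases Finset.mem_insert.mp hv with rfl | hv' <;> rcases Finset.mem_insert.mp hw with rfl | hw'
      · exact absurd rfl hvw
      · exact hcon w hw'
      · rw [dist_comm]; exact hcon v hv'
      · exact h2 v hv' w hw' hvw
  have h3 := hbd _ hP
  have h4 := Nat.findGreatest_is_greatest (P := P) (n := N) (k := s.card + 1) (by omega) h3
  exact h4 hP

end Helper77.TA
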