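import Pool.Agent.Helper77.TA.Caps

open MeasureTheory Filter Topology Real Metric FourierTransform Module
open scoped ENNReal NNReal InnerProductSpace

namespace Helper77.TA

variable {V : Type*} [NormedAddCommGroup V] [InnerProductSpace ℝ V] [FiniteDimensional ℝ V]
  [MeasurableSpace V] [BorelSpace V]

/-- Gaussian multiplier centred at `η`. -/
noncomputable def gauss (S : ℝ) (η ξ : V) : ℝ := Real.exp (-(π * ‖ξ - η‖ ^ 2 / S))

/-- The kernel of the Gaussian multiplier centred at the origin. -/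
noncomputable def kern (S : ℝ) (z : V) : ℝ :=
  S ^ ((finrank ℝ V : ℝ) / 2) * Real.exp (-(π * S * ‖z‖ ^ 2))

omit [InnerProductSpace ℝ V] [FiniteDimensional ℝ V] [MeasurableSpace V] [BorelSpace V] in
theorem gauss_pos (S : ℝ) (η ξ : V) : 0 < gauss S η ξ := exp_pos _

omit [InnerProductSpace ℝ V] [FiniteDimensional ℝ V] [MeasurableSpace V] [BorelSpace V] in
theorem gauss_le_one {S : ℝ} (hS : 0 < S) (η ξ : V) : gauss S η ξ ≤ 1 := by
  unfold gauss
  apply Real.exp_le_one_iff.mpr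
  have : 0 ≤ π * ‖ξ - η‖ ^ 2 / S := by positivity
  linarith

theorem fourier_kern {S : ℝ} (hS : 0 < S) (η ξ : V) :
    𝓕⁻ (fun v : V => (kern S v : ℂ) * Complex.exp (2 * π * Complex.I * ⟪-η, v⟫_ℝ)) ξ =
      (gauss S η ξ : ℂ) := by
  have hb : 0 < (((π * S : ℝ) : ℂ)).re := by
    rw [Complex.ofReal_re]; positivity
  have key := fourier_gaussian_innerProductSpace' (V := V) hb (-η) (-ξ)
  rw [← Real.fourierInv_eq_fourier_neg] at key
  have e1 : 𝓕⁻ (fun v : V => (kern S v : ℂ) * Complex.exp (2 * π * Complex.I * ⟪-η, v⟫_ℝ)) ξ =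
      ((S ^ ((finrank ℝ V : ℝ) / 2) : ℝ) : ℂ) * 𝓕⁻ (fun v : V => Complex.exp
        (-((π * S : ℝ) : ℂ) * ‖v‖ ^ 2 + 2 * π * Complex.I * ⟪-η, v⟫_ℝ)) ξ := by
    rw [fourierInv_formula, fourierInv_formula, ← integral_const_mul]
    refine integral_congr_ae (Eventually.of_forall fun v => ?_)
    simp only [kern]
    rw [Complex.exp_add]
    push_cast
    ring_nf
  rw [e1, key]
  have e2 : ((π : ℂ) / ((π * S : ℝ) : ℂ)) ^ ((finrank ℝ V : ℂ) / 2) =
      (((S ^ ((finrank ℝ V : ℝ) / 2))⁻¹ : ℝ) : ℂ) := by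
    have e3 : (π : ℂ) / ((π * S : ℝ) : ℂ) = ((S⁻¹ : ℝ) : ℂ) := by
      push_cast
      have := Real.pi_pos.ne'
      field_simp
    rw [e3, ← Real.inv_rpow hS.le]
    have e4 : ((finrank ℝ V : ℂ) / 2) = (((finrank ℝ V : ℝ) / 2 : ℝ) : ℂ) := by push_cast; ring
    rw [e4, Complex.ofReal_cpow (by positivity)]
  rw [e2, ← mul_assoc, ← Complex.ofReal_mul, mul_inv_cancel₀ (by positivity), Complex.ofReal_one,
    one_mul, gauss, Complex.ofReal_exp]
  congr 1
  have h1 : ‖-η - -ξ‖ = ‖ξ - η‖ := by congr 1; abel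
  rw [h1]
  push_cast
  have := Real.pi_pos.ne'
  have hS' := hS.ne'
  field_simp

omit [FiniteDimensional ℝ V] [MeasurableSpace V] [BorelSpace V] in
theorem continuous_kern (S : ℝ) : Continuous (kern (V := V) S) := by
  unfold kern
  fun_prop

omit [FiniteDimensional ℝ V] [MeasurableSpace V] [BorelSpace V] in
theorem kern_nonneg {S : ℝ} (hS : 0 < S) (z : V) : 0 ≤ kern S z := by
  unfold kern
  positivity

omit [FiniteDimensional ℝ V] [MeasurableSpace V] [BorelSpace V] in
theorem kern_le {S : ℝ} (hS : 0 < S) (z : V) : kern S z ≤ S ^ ((finrank ℝ V : ℝ) / 2) := by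
  unfold kern
  have h1 : Real.exp (-(π * S * ‖z‖ ^ 2)) ≤ 1 := by
    apply Real.exp_le_one_iff.mpr
    have : 0 ≤ π * S * ‖z‖ ^ 2 := by positivity
    linarith
  have h2 : 0 ≤ S ^ ((finrank ℝ V : ℝ) / 2) := by positivity
  nlinarith

theorem integrable_gaussian {b : ℝ} (hb : 0 < b) :
    Integrable fun z : V => Real.exp (-(b * ‖z‖ ^ 2)) := by
  have h := GaussianFourier.integrable_cexp_neg_mul_sq_norm_add (V := V) (b := (b : ℂ))
    (by rwa [Complex.ofReal_re]) 0 0
  have h2 := h.norm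
  refine h2.congr (Eventually.of_forall fun z => ?_)
  simp only [inner_zero_left, Complex.ofReal_zero, mul_zero, add_zero, Complex.norm_exp]
  congr 1
  have : (-(b : ℂ) * (‖z‖ : ℂ) ^ 2) = ((-(b * ‖z‖ ^ 2) : ℝ) : ℂ) := by push_cast; ring
  rw [this, Complex.ofReal_re]

theorem integrable_kern {S : ℝ} (hS : 0 < S) : Integrable (kern (V := V) S) := by
  unfold kern
  exact (integrable_gaussian (V := V) (by positivity)).const_mul _

/-- Fourier integrals are symmetric. -/
theorem flip_formula {φ g : V → ℂ} (hφ : Integrable φ) (hg : Integrable g) :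
    ∫ ξ, 𝓕⁻ φ ξ * g ξ = ∫ x, φ x * 𝓕⁻ g x := by
  have e5 := VectorFourier.integral_fourierIntegral_smul_eq_flip (V := V) (W := V)
    (μ := volume) (ν := volume) (f := φ) (g := g)
    Real.continuous_fourierChar (L := -innerₗ V)
    (by
      simp only [LinearMap.neg_apply, innerₗ_apply_apply]
      fun_prop) hφ hg
  have h1 : (-innerₗ V).flip = -innerₗ V := by
    ext a b
    simp [real_inner_comm]
  rw [h1] at e5
  exact e5

theorem fourierInv_translate {g : V → ℂ} (x z : V) :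
    𝓕⁻ (fun ξ => Complex.exp (2 * π * ⟪ξ, x⟫_ℝ * Complex.I) * g ξ) z = 𝓕⁻ g (x + z) := by
  rw [fourierInv_formula, fourierInv_formula]
  refine integral_congr_ae (Eventually.of_forall fun ξ => ?_)
  simp only
  rw [← mul_assoc, ← Complex.exp_add, inner_add_right]
  congr 2
  push_cast
  ring

/-- The multiplied function at `x`, as a Fourier transform in the frequency variable `η`. -/
theorem gabor_formula {S : ℝ} (hS : 0 < S) {g : V → ℂ} (h1 : Integrable g) (η x : V) :
    𝓕⁻ (fun ξ => (gauss S η ξ : ℂ) * g ξ) x =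
      𝓕 (fun z => (kern S z : ℂ) * 𝓕⁻ g (x + z)) η := by
  set gx : V → ℂ := fun ξ => Complex.exp (2 * π * ⟪ξ, x⟫_ℝ * Complex.I) * g ξ with hgx
  have hgxi : Integrable gx := by
    refine Integrable.mono' h1.norm ?_ (Eventually.of_forall fun ξ => ?_)
    · refine AEStronglyMeasurable.mul ?_ h1.aestronglyMeasurable
      apply Continuous.aestronglyMeasurable
      fun_prop
    · have : (2 * π * ⟪ξ, x⟫_ℝ * Complex.I : ℂ) = ((2 * π * ⟪ξ, x⟫_ℝ : ℝ) : ℂ) * Complex.I := by
        push_cast; ring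
      rw [hgx]
      simp only
      rw [norm_mul, this, Complex.norm_exp_ofReal_mul_I, one_mul]
  set φ : V → ℂ := fun v => (kern S v : ℂ) * Complex.exp (2 * π * Complex.I * ⟪-η, v⟫_ℝ) with hφ
  have hφi : Integrable φ := by
    refine Integrable.mono' (integrable_kern hS) ?_ (Eventually.of_forall fun v => ?_)
    · apply Continuous.aestronglyMeasurable
      have := continuous_kern (V := V) S
      fun_prop
    · have : (2 * π * Complex.I * ⟪-η, v⟫_ℝ : ℂ) = ((2 * π * ⟪-η, v⟫_ℝ : ℝ) : ℂ) * Complex.I := by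
        push_cast; ring
      rw [hφ]
      simp only
      rw [norm_mul, this, Complex.norm_exp_ofReal_mul_I, mul_one, Complex.norm_real,
        Real.norm_of_nonneg (kern_nonneg hS v)]
  have e1 : 𝓕⁻ (fun ξ => (gauss S η ξ : ℂ) * g ξ) x = ∫ ξ, 𝓕⁻ φ ξ * gx ξ := by
    rw [fourierInv_formula]
    refine integral_congr_ae (Eventually.of_forall fun ξ => ?_)
    simp only
    rw [hφ, fourier_kern hS, hgx]
    ring
  rw [e1, flip_formula hφi hgxi, Real.fourier_eq']
  refine integral_congr_ae (Eventually.of_forall fun z => ?_)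
  simp only [hgx]
  rw [fourierInv_translate, hφ, smul_eq_mul]
  simp only
  rw [mul_comm (kern S z : ℂ), mul_assoc]
  congr 2
  rw [inner_neg_left, real_inner_comm]
  push_cast
  ring

theorem memLp_fourierInv {g : V → ℂ} (h1 : Integrable g) (h2 : MemLp g 2) :
    MemLp (𝓕⁻ g) 2 := by
  refine ⟨(continuous_fourierInv h1).aestronglyMeasurable, ?_⟩
  rw [← eLpNorm_congr_ae (fourierInv_toLp_ae h1 h2)]
  exact Lp.eLpNorm_lt_top _

theorem norm_fourierInv_le (g : V → ℂ) (h1 : Integrable g) (v : V) :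
    ‖𝓕⁻ g v‖ ≤ ∫ ξ, ‖g ξ‖ := by
  rw [fourierInv_formula]
  apply norm_integral_le_of_norm_le h1.norm
  filter_upwards with ξ
  have : (2 * π * ⟪ξ, v⟫_ℝ * Complex.I : ℂ) = ((2 * π * ⟪ξ, v⟫_ℝ : ℝ) : ℂ) * Complex.I := by
    push_cast; ring
  rw [norm_mul, this, Complex.norm_exp_ofReal_mul_I, one_mul]

theorem plancherel_fourier {h : V → ℂ} (h1 : Integrable h) (h2 : MemLp h 2) :
    ∫⁻ η, ‖𝓕 h η‖ₑ ^ 2 = ∫⁻ z, ‖h z‖ₑ ^ 2 := by
  rw [← plancherel h1 h2]
  have e1 : ∀ η, 𝓕⁻ h η = 𝓕 h (-η) := fun η => Real.fourierInv_eq_fourier_neg h η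
  simp_rw [e1]
  exact (lintegral_neg_eq_self (μ := volume) (fun η => ‖𝓕 h η‖ₑ ^ 2)).symm

theorem gabor_plancherel {S : ℝ} (hS : 0 < S) {g : V → ℂ} (h1 : Integrable g)
    (h2 : MemLp g 2) (x : V) :
    ∫⁻ η, ‖𝓕⁻ (fun ξ => (gauss S η ξ : ℂ) * g ξ) x‖ₑ ^ 2 =
      ∫⁻ z, ENNReal.ofReal (kern S z ^ 2) * ‖𝓕⁻ g (x + z)‖ₑ ^ 2 := by
  simp_rw [gabor_formula hS h1]
  have hF := memLp_fourierInv h1 h2
  have hFc := continuous_fourierInv h1
  have hkc := continuous_kern (V := V) S
  have hm : AEStronglyMeasurable (fun z => (kern S z : ℂ) * 𝓕⁻ g (x + z)) volume := by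
    apply Continuous.aestronglyMeasurable
    fun_prop
  have i1 : Integrable (fun z => (kern S z : ℂ) * 𝓕⁻ g (x + z)) := by
    refine Integrable.mono' ((integrable_kern hS).mul_const (∫ ξ, ‖g ξ‖)) hm
      (Eventually.of_forall fun z => ?_)
    rw [norm_mul, Complex.norm_real, Real.norm_of_nonneg (kern_nonneg hS z)]
    exact mul_le_mul_of_nonneg_left (norm_fourierInv_le g h1 _) (kern_nonneg hS z)
  have i2 : MemLp (fun z => (kern S z : ℂ) * 𝓕⁻ g (x + z)) 2 := by
    have h3 : MemLp (fun z => 𝓕⁻ g (x + z)) 2 := hF.comp_measurePreserving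
      (measurePreserving_add_left volume x)
    refine MemLp.of_le_mul (c := S ^ ((finrank ℝ V : ℝ) / 2)) h3 hm
      (Eventually.of_forall fun z => ?_)
    rw [norm_mul, Complex.norm_real, Real.norm_of_nonneg (kern_nonneg hS z)]
    exact mul_le_mul_of_nonneg_right (kern_le hS z) (norm_nonneg _)
  rw [plancherel_fourier i1 i2]
  refine lintegral_congr fun z => ?_
  rw [enorm_mul, mul_pow]
  congr 1
  rw [← ofReal_norm, Complex.norm_real, Real.norm_of_nonneg (kern_nonneg hS z),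
    ENNReal.ofReal_pow (kern_nonneg hS z)]

/-- Joint measurability of the Gabor transform. -/
theorem measurable_gabor (S : ℝ) {g : V → ℂ} (hg : StronglyMeasurable g) :
    Measurable fun p : V × V => 𝓕⁻ (fun ξ => (gauss S p.1 ξ : ℂ) * g ξ) p.2 := by
  simp_rw [fourierInv_formula]
  have h1 : StronglyMeasurable fun q : (V × V) × V =>
      Complex.exp (2 * π * ⟪q.2, q.1.2⟫_ℝ * Complex.I) * ((gauss S q.1.1 q.2 : ℂ) * g q.2) := by
    have hc1 : Continuous fun q : (V × V) × V =>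
        Complex.exp (2 * π * ⟪q.2, q.1.2⟫_ℝ * Complex.I) := by fun_prop
    have hc2 : Continuous fun q : (V × V) × V => (gauss S q.1.1 q.2 : ℂ) := by
      unfold gauss
      fun_prop
    exact hc1.stronglyMeasurable.mul
      (hc2.stronglyMeasurable.mul (hg.comp_measurable measurable_snd))
  exact (h1.integral_prod_right').measurable

end Helper77.TA
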