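import Pool.Agent.Helper77.TA.Jensen

open MeasureTheory Filter Topology Real Metric

namespace Helper77.TA

/-- The Cayley map from the unit disc to the upper half plane, `0 ↦ i y`. -/
noncomputable def cay (y : ℝ) (w : ℂ) : ℂ := Complex.I * y * (1 + w) / (1 - w)

/-- The boundary values of the Cayley map. -/
noncomputable def bdry (y θ : ℝ) : ℝ := -(y * sin θ) / (1 - cos θ)

theorem measurable_bdry (y : ℝ) : Measurable (bdry y) := by
  unfold bdry
  fun_prop

theorem cay_zero (y : ℝ) : cay y 0 = Complex.I * y := by simp [cay]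

theorem cay_im_nonneg {y : ℝ} (hy : 0 < y) {w : ℂ} (hw : ‖w‖ < 1) : 0 ≤ (cay y w).im := by
  have h1 : w.re ^ 2 + w.im ^ 2 < 1 := by
    have h2 : ‖w‖ ^ 2 = w.re ^ 2 + w.im ^ 2 := by
      rw [← Complex.normSq_eq_norm_sq, Complex.normSq_apply]; ring
    have h3 : ‖w‖ ^ 2 < 1 := by
      have := norm_nonneg w
      nlinarith
    linarith
  have h4 : (cay y w).im =
      (y * (1 - (w.re ^ 2 + w.im ^ 2))) / Complex.normSq (1 - w) := by
    simp only [cay, Complex.div_im, Complex.mul_im, Complex.mul_re, Complex.I_re, Complex.I_im,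
      Complex.ofReal_re, Complex.ofReal_im, Complex.add_re, Complex.add_im, Complex.one_re,
      Complex.one_im, Complex.sub_re, Complex.sub_im]
    ring
  rw [h4]
  apply div_nonneg
  · apply mul_nonneg hy.le; linarith
  · exact Complex.normSq_nonneg _

theorem one_sub_cos_pos {θ : ℝ} (hθ : θ ∈ Set.Ioo (0 : ℝ) (2 * π)) : 0 < 1 - cos θ := by
  have h1 : cos θ < 1 := by
    rcases (cos_le_one θ).lt_or_eq with h | h
    · exact h
    · exfalso
      rw [Real.cos_eq_one_iff_of_lt_of_lt] at h
      · exact hθ.1.ne' h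
      · linarith [hθ.1, Real.pi_pos]
      · exact hθ.2
  linarith

theorem circleMap_one (θ : ℝ) : circleMap 0 1 θ = (cos θ : ℂ) + (sin θ : ℂ) * Complex.I := by
  rw [circleMap, zero_add, Complex.ofReal_one, one_mul, Complex.exp_mul_I]
  push_cast
  ring

theorem circleMap_one_ne {θ : ℝ} (hθ : θ ∈ Set.Ioo (0 : ℝ) (2 * π)) :
    (1 : ℂ) - circleMap 0 1 θ ≠ 0 := by
  intro h
  have h1 := congrArg Complex.re h
  rw [circleMap_one] at h1
  simp only [Complex.sub_re, Complex.one_re, Complex.add_re, Complex.mul_re, Complex.ofReal_re,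
    Complex.I_re, Complex.ofReal_im, Complex.I_im, Complex.zero_re] at h1
  have := one_sub_cos_pos hθ
  linarith

theorem cay_circle {y θ : ℝ} (hθ : θ ∈ Set.Ioo (0 : ℝ) (2 * π)) :
    cay y (circleMap 0 1 θ) = (bdry y θ : ℂ) := by
  have h1 := circleMap_one_ne hθ
  have h2 := (one_sub_cos_pos hθ).ne'
  rw [cay, div_eq_iff h1, circleMap_one]
  have h3 : bdry y θ * (1 - cos θ) = -(y * sin θ) := by
    rw [bdry, div_mul_cancel₀ _ h2]
  have h5 : sin θ ^ 2 = (1 + cos θ) * (1 - cos θ) := by
    have := Real.sin_sq_add_cos_sq θ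
    nlinarith
  have h4 : bdry y θ * sin θ = -(y * (1 + cos θ)) := by
    rw [bdry, div_mul_eq_mul_div, div_eq_iff h2]
    linear_combination (-y) * h5
  apply Complex.ext
  · simp only [Complex.mul_re, Complex.mul_im, Complex.I_re, Complex.I_im, Complex.ofReal_re,
      Complex.ofReal_im, Complex.add_re, Complex.add_im, Complex.one_re, Complex.one_im,
      Complex.sub_re, Complex.sub_im]
    linarith
  · simp only [Complex.mul_re, Complex.mul_im, Complex.I_re, Complex.I_im, Complex.ofReal_re,
      Complex.ofReal_im, Complex.add_re, Complex.add_im, Complex.one_re, Complex.one_im,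
      Complex.sub_re, Complex.sub_im]
    linarith

theorem tendsto_cay {y θ : ℝ} (hθ : θ ∈ Set.Ioo (0 : ℝ) (2 * π)) :
    Tendsto (fun r : ℝ => cay y (circleMap 0 r θ)) (𝓝[<] 1) (𝓝 (bdry y θ : ℂ)) := by
  rw [← cay_circle hθ]
  apply Tendsto.mono_left _ nhdsWithin_le_nhds
  have h1 : ContinuousAt (fun r : ℝ => circleMap 0 r θ) 1 := by
    unfold circleMap
    fun_prop
  have h2 : ContinuousAt (cay y) (circleMap 0 1 θ) := by
    unfold cay
    refine ContinuousAt.div (by fun_prop) (by fun_prop) (circleMap_one_ne hθ)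
  exact ContinuousAt.tendsto (f := fun r : ℝ => cay y (circleMap 0 r θ))
    (ContinuousAt.comp (f := fun r : ℝ => circleMap 0 r θ) h2 h1)

/-- Two-constants theorem for the upper half plane with square means. -/
theorem halfplane_two_const {h : ℂ → ℂ} (hh : Differentiable ℂ h) {M : ℝ}
    (hM : ∀ z : ℂ, 0 ≤ z.im → ‖h z‖ ≤ M) {y : ℝ} (hy : 0 < y)
    {S : Set ℝ} (hS : MeasurableSet S) {a : ℝ} (ha0 : 0 < a) (ha1 : a < 1)
    (haS : a ≤ angle.real S) :
    ‖h (Complex.I * y)‖ ^ 2 ≤ exp 1 * ((∫ θ in S, ‖h (bdry y θ : ℂ)‖ ^ 2 ∂angle) ^ a *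
      (∫ θ, ‖h (bdry y θ : ℂ)‖ ^ 2 ∂angle) ^ (1 - a)) := by
  have hG : AnalyticOnNhd ℂ (fun w => h (cay y w)) (ball 0 1) := by
    apply DifferentiableOn.analyticOnNhd _ isOpen_ball
    intro w hw
    apply DifferentiableAt.differentiableWithinAt
    apply DifferentiableAt.comp
    · exact hh _
    · unfold cay
      refine DifferentiableAt.div (by fun_prop) (by fun_prop) ?_
      intro h0
      have h1 : w = 1 := by rw [sub_eq_zero] at h0; exact h0.symm
      rw [h1] at hw
      simp at hw
  have := two_const hG (M := M)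
    (by
      intro w hw
      apply hM
      apply cay_im_nonneg hy
      simpa using hw)
    (G1 := fun θ => h (bdry y θ : ℂ))
    (by
      exact hh.continuous.measurable.comp (Complex.measurable_ofReal.comp (measurable_bdry y)))
    (by
      intro θ hθ
      exact (hh.continuous.tendsto _).comp (tendsto_cay hθ))
    hS ha0 ha1 haS
  simpa only [cay_zero] using this

end Helper77.TA
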