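import Mathlib

open MeasureTheory Filter Topology Real Metric

namespace Helper77.TA

/-- The normalised Lebesgue measure on the angles `(0, 2π]`. -/
noncomputable def angle : Measure ℝ :=
  ENNReal.ofReal (2 * π)⁻¹ • volume.restrict (Set.Ioc 0 (2 * π))

theorem angle_univ : angle Set.univ = 1 := by
  have h : (0 : ℝ) < 2 * π := by positivity
  rw [angle, Measure.smul_apply, Measure.restrict_apply_univ, Real.volume_Ioc, smul_eq_mul,
    sub_zero, ← ENNReal.ofReal_mul (by positivity), inv_mul_cancel₀ h.ne', ENNReal.ofReal_one]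

instance : IsProbabilityMeasure angle := ⟨angle_univ⟩

theorem integral_angle (f : ℝ → ℝ) :
    ∫ θ, f θ ∂angle = (2 * π)⁻¹ * ∫ θ in (0 : ℝ)..(2 * π), f θ := by
  rw [angle, integral_smul_measure, intervalIntegral.integral_of_le (by positivity),
    ENNReal.toReal_ofReal (by positivity), smul_eq_mul]

theorem ae_angle_of_forall {p : ℝ → Prop} (h : ∀ θ ∈ Set.Ioo (0 : ℝ) (2 * π), p θ) :
    ∀ᵐ θ ∂angle, p θ := by
  unfold angle
  refine Measure.ae_smul_measure ?_ _
  rw [← restrict_Ioo_eq_restrict_Ioc]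
  exact ae_restrict_of_forall_mem measurableSet_Ioo h

theorem integrable_angle {f : ℝ → ℝ} (h : IntervalIntegrable f volume 0 (2 * π)) :
    Integrable f angle := by
  unfold angle
  refine Integrable.smul_measure ?_ ENNReal.ofReal_ne_top
  rw [intervalIntegrable_iff_integrableOn_Ioc_of_le (by positivity)] at h
  exact h

theorem log_le_aux {u c : ℝ} (hu : 0 ≤ u) (hc : exp 1 ≤ c) :
    Real.log u ≤ Real.log c + u / c - 1 := by
  have hc0 : 0 < c := lt_of_lt_of_le (exp_pos 1) hc
  have hlog : 1 ≤ Real.log c := by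
    rw [Real.le_log_iff_exp_le hc0]; exact hc
  rcases hu.eq_or_lt with h | h
  · rw [← h]; simp; linarith
  · have h1 : Real.log (u / c) ≤ u / c - 1 := Real.log_le_sub_one_of_pos (by positivity)
    rw [Real.log_div h.ne' hc0.ne'] at h1
    linarith

/-- Jensen's inequality on a circle, in a pointwise form with a comparison function `c ≥ e`. -/
theorem jensen_pt {G : ℂ → ℂ} {r : ℝ} (hr : 0 < r)
    (hG : AnalyticOnNhd ℂ G (closedBall 0 r)) (h0 : G 0 ≠ 0) {c : ℝ → ℝ} (hc : Measurable c)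
    {K : ℝ} (hcκ : ∀ θ, exp 1 ≤ c θ) (hcK : ∀ θ, c θ ≤ K) :
    2 * Real.log ‖G 0‖ ≤
      ∫ θ, (Real.log (c θ) + ‖G (circleMap 0 r θ)‖ ^ 2 / c θ - 1) ∂angle := by
  have hr' : |r| = r := abs_of_pos hr
  have hG' : AnalyticOnNhd ℂ G (closedBall 0 |r|) := by rwa [hr']
  have e1 := AnalyticOnNhd.circleAverage_log_norm hr.ne' hG' h0
  have e2 : 0 ≤ ∑ᶠ u, MeromorphicOn.divisor G (closedBall 0 |r|) u *
      Real.log (r * ‖(0 : ℂ) - u‖⁻¹) := by
    apply finsum_nonneg
    intro u
    by_cases hu : u ∈ closedBall (0 : ℂ) |r|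
    · refine mul_nonneg (mod_cast MeromorphicOn.AnalyticOnNhd.divisor_nonneg hG' _) ?_
      by_cases h3 : u = 0
      · simp [h3]
      · apply log_nonneg
        have h4 : 0 < ‖(0 : ℂ) - u‖ := by
          rw [norm_pos_iff, zero_sub]; exact neg_ne_zero.mpr h3
        rw [← div_eq_mul_inv, one_le_div h4]
        simpa [hr'] using hu
    · rw [Function.locallyFinsuppWithin.apply_eq_zero_of_notMem _ hu]
      simp
  have e3 : Real.log ‖G 0‖ ≤ circleAverage (fun z => Real.log ‖G z‖) 0 r := by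
    rw [e1]; linarith
  have hint : IntervalIntegrable (fun θ => Real.log ‖G (circleMap 0 r θ)‖) volume 0 (2 * π) := by
    have := (hG'.mono sphere_subset_closedBall).meromorphicOn.circleIntegrable_log_norm
    exact this
  have hcont : Continuous fun θ => G (circleMap 0 r θ) := by
    have h1 : ContinuousOn G (closedBall 0 r) := hG.continuousOn
    refine h1.comp_continuous (continuous_circleMap 0 r) ?_
    intro θ
    exact circleMap_mem_closedBall 0 hr.le θ
  obtain ⟨B, hB⟩ : ∃ B, ∀ θ, ‖G (circleMap 0 r θ)‖ ^ 2 ≤ B := by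
    obtain ⟨B, hB⟩ := (isCompact_closedBall (0 : ℂ) r).exists_bound_of_continuousOn hG.continuousOn
    refine ⟨B ^ 2, fun θ => ?_⟩
    have := hB _ (circleMap_mem_closedBall 0 hr.le θ)
    gcongr
  have hlogm : Measurable fun θ => Real.log (c θ) := Real.measurable_log.comp hc
  have hc0 : ∀ θ, 0 < c θ := fun θ => lt_of_lt_of_le (exp_pos 1) (hcκ θ)
  have hlog0 : ∀ θ, 0 ≤ Real.log (c θ) := fun θ => by
    apply Real.log_nonneg
    have := hcκ θ
    have h2 : (1 : ℝ) ≤ exp 1 := by
      have := Real.add_one_le_exp (1 : ℝ); linarith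
    linarith
  have hi1 : Integrable (fun θ => Real.log (c θ)) angle := by
    refine Integrable.of_bound hlogm.aestronglyMeasurable (Real.log K) ?_
    filter_upwards with θ
    rw [Real.norm_of_nonneg (hlog0 θ)]
    exact Real.log_le_log (hc0 θ) (hcK θ)
  have hi2 : Integrable (fun θ => ‖G (circleMap 0 r θ)‖ ^ 2 / c θ) angle := by
    refine Integrable.of_bound ?_ (B / exp 1) ?_
    · exact ((hcont.norm.pow 2).measurable.div hc).aestronglyMeasurable
    · filter_upwards with θ
      rw [Real.norm_of_nonneg (div_nonneg (by positivity) (hc0 θ).le)]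
      have h1 := hB θ
      have h2 := hcκ θ
      have h3 : 0 ≤ ‖G (circleMap 0 r θ)‖ ^ 2 := by positivity
      exact div_le_div₀ (h3.trans h1) h1 (exp_pos 1) h2
  have e4 : circleAverage (fun z => Real.log ‖G z‖) 0 r =
      ∫ θ, Real.log ‖G (circleMap 0 r θ)‖ ∂angle := by
    rw [integral_angle, circleAverage]
    rfl
  rw [e4] at e3
  have e5 : 2 * ∫ θ, Real.log ‖G (circleMap 0 r θ)‖ ∂angle =
      ∫ θ, Real.log (‖G (circleMap 0 r θ)‖ ^ 2) ∂angle := by
    rw [← integral_const_mul]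
    congr 1
    ext θ
    rw [Real.log_pow]
    norm_num
  have e6 : ∫ θ, Real.log (‖G (circleMap 0 r θ)‖ ^ 2) ∂angle ≤
      ∫ θ, (Real.log (c θ) + ‖G (circleMap 0 r θ)‖ ^ 2 / c θ - 1) ∂angle := by
    apply integral_mono_ae
    · have : Integrable (fun θ => 2 * Real.log ‖G (circleMap 0 r θ)‖) angle :=
        (integrable_angle hint).const_mul 2
      refine this.congr (Eventually.of_forall fun θ => ?_)
      simp only
      rw [Real.log_pow]
      norm_num
    · exact (hi1.add hi2).sub (integrable_const 1)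
    · exact Eventually.of_forall fun θ => log_le_aux (by positivity) (hcκ θ)
  linarith

/-- Jensen's inequality on a circle with an arbitrary positive comparison function. -/
theorem jensen_scaled {G : ℂ → ℂ} {r : ℝ} (hr : 0 < r)
    (hG : AnalyticOnNhd ℂ G (closedBall 0 r)) (h0 : G 0 ≠ 0) {c : ℝ → ℝ} (hc : Measurable c)
    {κ K : ℝ} (hκ : 0 < κ) (hcκ : ∀ θ, κ ≤ c θ) (hcK : ∀ θ, c θ ≤ K)
    (hi : Integrable (fun θ => Real.log (c θ) + ‖G (circleMap 0 r θ)‖ ^ 2 / c θ - 1) angle) :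
    2 * Real.log ‖G 0‖ ≤
      ∫ θ, (Real.log (c θ) + ‖G (circleMap 0 r θ)‖ ^ 2 / c θ - 1) ∂angle := by
  set l : ℝ := Real.sqrt (exp 1 / κ) with hl
  have hl0 : 0 < l := Real.sqrt_pos.mpr (by positivity)
  have hl2 : l ^ 2 = exp 1 / κ := Real.sq_sqrt (by positivity)
  have hG' : AnalyticOnNhd ℂ (fun z => (l : ℂ) * G z) (closedBall 0 r) :=
    fun z hz => analyticAt_const.mul (hG z hz)
  have h0' : (l : ℂ) * G 0 ≠ 0 := mul_ne_zero (by exact_mod_cast hl0.ne') h0
  have hc0 : ∀ θ, 0 < c θ := fun θ => hκ.trans_le (hcκ θ)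
  have key := jensen_pt hr hG' h0' (c := fun θ => l ^ 2 * c θ) (hc.const_mul _) (K := l ^ 2 * K)
    (by
      intro θ
      rw [hl2, div_mul_eq_mul_div, le_div_iff₀ hκ]
      exact mul_le_mul_of_nonneg_left (hcκ θ) (exp_pos 1).le)
    (by
      intro θ
      exact mul_le_mul_of_nonneg_left (hcK θ) (by positivity))
  have e1 : ∀ θ, Real.log (l ^ 2 * c θ) + ‖(l : ℂ) * G (circleMap 0 r θ)‖ ^ 2 / (l ^ 2 * c θ) - 1 =
      2 * Real.log l + (Real.log (c θ) + ‖G (circleMap 0 r θ)‖ ^ 2 / c θ - 1) := by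
    intro θ
    have h1 := hc0 θ
    rw [Real.log_mul (by positivity) h1.ne', Real.log_pow, norm_mul, Complex.norm_real,
      Real.norm_of_nonneg hl0.le, mul_pow, mul_div_mul_left _ _ (by positivity)]
    push_cast
    ring
  simp only [e1] at key
  rw [integral_add (integrable_const _) hi, integral_const, norm_mul, Complex.norm_real,
    Real.norm_of_nonneg hl0.le, Real.log_mul hl0.ne' (norm_ne_zero_iff.mpr h0)] at key
  simp only [probReal_univ, smul_eq_mul, one_mul] at key
  linarith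

/-- Jensen's inequality for a bounded analytic function on the disc with radial limits. -/
theorem jensen_lim {G : ℂ → ℂ} (hG : AnalyticOnNhd ℂ G (ball 0 1)) {M : ℝ}
    (hM : ∀ w ∈ ball (0 : ℂ) 1, ‖G w‖ ≤ M) {G1 : ℝ → ℂ}
    (hlim : ∀ θ ∈ Set.Ioo (0 : ℝ) (2 * π),
      Tendsto (fun r : ℝ => G (circleMap 0 r θ)) (𝓝[<] 1) (𝓝 (G1 θ)))
    (h0 : G 0 ≠ 0) {c : ℝ → ℝ} (hc : Measurable c) {κ K : ℝ} (hκ : 0 < κ)
    (hcκ : ∀ θ, κ ≤ c θ) (hcK : ∀ θ, c θ ≤ K) :
    2 * Real.log ‖G 0‖ ≤ ∫ θ, (Real.log (c θ) + ‖G1 θ‖ ^ 2 / c θ - 1) ∂angle := by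
  have hc0 : ∀ θ, 0 < c θ := fun θ => hκ.trans_le (hcκ θ)
  have hlogm : Measurable fun θ => Real.log (c θ) := Real.measurable_log.comp hc
  set B : ℝ := (|Real.log κ| + |Real.log K|) + M ^ 2 / κ + 1 with hB
  have hmeas : ∀ r : ℝ, 0 < r → r < 1 →
      AEStronglyMeasurable (fun θ => Real.log (c θ) + ‖G (circleMap 0 r θ)‖ ^ 2 / c θ - 1)
        angle := by
    intro r hr hr1
    have hcont : Continuous fun θ => G (circleMap 0 r θ) := by
      have h1 : ContinuousOn G (ball 0 1) := hG.continuousOn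
      refine h1.comp_continuous (continuous_circleMap 0 r) ?_
      intro θ
      have := circleMap_mem_closedBall 0 hr.le θ
      rw [mem_closedBall] at this
      rw [mem_ball]
      linarith
    exact ((hlogm.add ((hcont.norm.pow 2).measurable.div hc)).sub
      measurable_const).aestronglyMeasurable
  have hbd : ∀ r : ℝ, 0 < r → r < 1 → ∀ θ,
      ‖Real.log (c θ) + ‖G (circleMap 0 r θ)‖ ^ 2 / c θ - 1‖ ≤ B := by
    intro r hr hr1 θ
    have hmem : circleMap 0 r θ ∈ ball (0 : ℂ) 1 := by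
      have := circleMap_mem_closedBall 0 hr.le θ
      rw [mem_closedBall] at this
      rw [mem_ball]
      linarith
    have h1 := hM _ hmem
    have h2 : ‖G (circleMap 0 r θ)‖ ^ 2 / c θ ≤ M ^ 2 / κ := by
      have h3 : ‖G (circleMap 0 r θ)‖ ^ 2 ≤ M ^ 2 := by gcongr
      exact div_le_div₀ (by positivity) h3 hκ (hcκ θ)
    have h4 : 0 ≤ ‖G (circleMap 0 r θ)‖ ^ 2 / c θ := div_nonneg (by positivity) (hc0 θ).le
    have h5 : Real.log (c θ) ≤ |Real.log K| :=
      (Real.log_le_log (hc0 θ) (hcK θ)).trans (le_abs_self _)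
    have h6 : -|Real.log κ| ≤ Real.log (c θ) :=
      (neg_abs_le _).trans (Real.log_le_log hκ (hcκ θ))
    have h7 : 0 ≤ |Real.log K| := abs_nonneg _
    have h8 : 0 ≤ |Real.log κ| := abs_nonneg _
    rw [Real.norm_eq_abs, abs_le, hB]
    constructor <;> linarith
  have hev : ∀ᶠ r : ℝ in 𝓝[<] 1, 0 < r ∧ r < 1 := by
    filter_upwards [Ioo_mem_nhdsLT (show (0 : ℝ) < 1 by norm_num)] with r hr
    exact hr
  have hlim2 : Tendsto (fun r : ℝ => ∫ θ, (Real.log (c θ) +
      ‖G (circleMap 0 r θ)‖ ^ 2 / c θ - 1) ∂angle) (𝓝[<] 1)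
      (𝓝 (∫ θ, (Real.log (c θ) + ‖G1 θ‖ ^ 2 / c θ - 1) ∂angle)) := by
    apply tendsto_integral_filter_of_dominated_convergence (fun _ => B)
    · filter_upwards [hev] with r hr using hmeas r hr.1 hr.2
    · filter_upwards [hev] with r hr
      exact Eventually.of_forall (hbd r hr.1 hr.2)
    · exact integrable_const _
    · apply ae_angle_of_forall
      intro θ hθ
      have h1 := hlim θ hθ
      exact ((tendsto_const_nhds.add ((h1.norm.pow 2).div_const _)).sub_const 1)
  refine ge_of_tendsto hlim2 ?_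
  filter_upwards [hev] with r hr
  refine jensen_scaled hr.1 (hG.mono (closedBall_subset_ball hr.2)) h0 hc hκ hcκ hcK ?_
  exact Integrable.of_bound (hmeas r hr.1 hr.2) B (Eventually.of_forall (hbd r hr.1 hr.2))

/-- Two-constants theorem with the square means of the boundary values. -/
theorem two_const {G : ℂ → ℂ} (hG : AnalyticOnNhd ℂ G (ball 0 1)) {M : ℝ}
    (hM : ∀ w ∈ ball (0 : ℂ) 1, ‖G w‖ ≤ M) {G1 : ℝ → ℂ} (hG1 : Measurable G1)
    (hlim : ∀ θ ∈ Set.Ioo (0 : ℝ) (2 * π),
      Tendsto (fun r : ℝ => G (circleMap 0 r θ)) (𝓝[<] 1) (𝓝 (G1 θ)))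
    {S : Set ℝ} (hS : MeasurableSet S) {a : ℝ} (ha0 : 0 < a) (ha1 : a < 1)
    (haS : a ≤ angle.real S) :
    ‖G 0‖ ^ 2 ≤ exp 1 * ((∫ θ in S, ‖G1 θ‖ ^ 2 ∂angle) ^ a *
      (∫ θ, ‖G1 θ‖ ^ 2 ∂angle) ^ (1 - a)) := by
  have hbd : ∀ᵐ θ ∂angle, ‖G1 θ‖ ≤ M := by
    apply ae_angle_of_forall
    intro θ hθ
    refine le_of_tendsto (hlim θ hθ).norm ?_
    filter_upwards [Ioo_mem_nhdsLT (show (0 : ℝ) < 1 by norm_num)] with r hr
    apply hM
    have := circleMap_mem_closedBall 0 hr.1.le θ
    rw [mem_closedBall] at this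
    rw [mem_ball]
    linarith [hr.2]
  have hsq : Integrable (fun θ => ‖G1 θ‖ ^ 2) angle := by
    refine Integrable.of_bound (hG1.norm.pow_const 2).aestronglyMeasurable (M ^ 2) ?_
    filter_upwards [hbd] with θ h
    rw [Real.norm_of_nonneg (by positivity)]
    gcongr
  set U : ℝ := ∫ θ, ‖G1 θ‖ ^ 2 ∂angle with hU
  set US : ℝ := ∫ θ in S, ‖G1 θ‖ ^ 2 ∂angle with hUS
  have hUS0 : 0 ≤ US := integral_nonneg fun θ => by positivity
  have hUSU : US ≤ U := setIntegral_le_integral hsq (Eventually.of_forall fun θ => by positivity)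
  have hU0 : 0 ≤ U := hUS0.trans hUSU
  have hcomp : US + ∫ θ in Sᶜ, ‖G1 θ‖ ^ 2 ∂angle = U := integral_add_compl hS hsq
  by_cases h0 : G 0 = 0
  · rw [h0]
    simp only [norm_zero, ne_eq, OfNat.ofNat_ne_zero, not_false_eq_true, zero_pow]
    positivity
  have step : ∀ ε : ℝ, 0 < ε → ‖G 0‖ ^ 2 ≤ exp 1 * ((US + ε) ^ a * (U + ε) ^ (1 - a)) := by
    intro ε hε
    set κ := US + ε with hκdef
    set K := U + ε with hKdef
    have hκ : 0 < κ := by positivity
    have hK : 0 < K := by positivity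
    have hκK : κ ≤ K := by linarith
    classical
    set c : ℝ → ℝ := fun θ => if θ ∈ S then κ else K with hcdef
    have hcm : Measurable c := Measurable.ite hS measurable_const measurable_const
    have key := jensen_lim hG hM hlim h0 (c := c) hcm (κ := κ) (K := K) hκ
      (by intro θ; simp only [hcdef]; split_ifs <;> linarith)
      (by intro θ; simp only [hcdef]; split_ifs <;> linarith)
    have i1 : Integrable (fun θ => Real.log (c θ) + ‖G1 θ‖ ^ 2 / c θ - 1) angle := by
      have hc0 : ∀ θ, κ ≤ c θ := by intro θ; simp only [hcdef]; split_ifs <;> linarith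
      have hcK : ∀ θ, c θ ≤ K := by intro θ; simp only [hcdef]; split_ifs <;> linarith
      refine Integrable.sub (Integrable.add ?_ ?_) (integrable_const 1)
      · refine Integrable.of_bound (Real.measurable_log.comp hcm).aestronglyMeasurable
          (|Real.log κ| + |Real.log K|) (Eventually.of_forall fun θ => ?_)
        rw [Real.norm_eq_abs, abs_le]
        have h1 := (Real.log_le_log (hκ.trans_le (hc0 θ)) (hcK θ)).trans (le_abs_self _)
        have h2 := (neg_abs_le _).trans (Real.log_le_log hκ (hc0 θ))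
        have h7 : 0 ≤ |Real.log K| := abs_nonneg _
        have h8 : 0 ≤ |Real.log κ| := abs_nonneg _
        constructor <;> linarith
      · refine Integrable.of_bound ((hG1.norm.pow_const 2).div hcm).aestronglyMeasurable
          (M ^ 2 / κ) ?_
        filter_upwards [hbd] with θ h
        have h3 : ‖G1 θ‖ ^ 2 ≤ M ^ 2 := by gcongr
        rw [Real.norm_of_nonneg (div_nonneg (by positivity) (hκ.le.trans (hc0 θ)))]
        exact div_le_div₀ (by positivity) h3 hκ (hc0 θ)
    rw [← integral_add_compl hS i1] at key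
    have e1 : ∫ θ in S, (Real.log (c θ) + ‖G1 θ‖ ^ 2 / c θ - 1) ∂angle =
        angle.real S * (Real.log κ - 1) + US / κ := by
      have : ∫ θ in S, (Real.log (c θ) + ‖G1 θ‖ ^ 2 / c θ - 1) ∂angle =
          ∫ θ in S, ((Real.log κ - 1) + κ⁻¹ * ‖G1 θ‖ ^ 2) ∂angle := by
        apply setIntegral_congr_fun hS
        intro θ hθ
        simp only [hcdef, hθ, if_true]
        ring
      rw [this, integral_add (integrable_const _) (hsq.integrableOn.const_mul _),
        setIntegral_const, integral_const_mul, smul_eq_mul]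
      ring
    have e2 : ∫ θ in Sᶜ, (Real.log (c θ) + ‖G1 θ‖ ^ 2 / c θ - 1) ∂angle =
        (1 - angle.real S) * (Real.log K - 1) + (U - US) / K := by
      have h9 : ∫ θ in Sᶜ, (Real.log (c θ) + ‖G1 θ‖ ^ 2 / c θ - 1) ∂angle =
          ∫ θ in Sᶜ, ((Real.log K - 1) + K⁻¹ * ‖G1 θ‖ ^ 2) ∂angle := by
        apply setIntegral_congr_fun hS.compl
        intro θ hθ
        have hθ' : θ ∉ S := hθ
        simp only [hcdef, hθ', if_false]
        ring
      rw [h9, integral_add (integrable_const _) (hsq.integrableOn.const_mul _),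
        setIntegral_const, integral_const_mul, smul_eq_mul, probReal_compl_eq_one_sub hS]
      have : ∫ θ in Sᶜ, ‖G1 θ‖ ^ 2 ∂angle = U - US := by linarith
      rw [this]
      ring
    rw [e1, e2] at key
    have f1 : US / κ ≤ 1 := by rw [div_le_one hκ]; linarith
    have f2 : (U - US) / K ≤ 1 := by rw [div_le_one hK]; linarith
    have f3 : Real.log κ ≤ Real.log K := Real.log_le_log hκ hκK
    have hlogG : 2 * Real.log ‖G 0‖ = Real.log (‖G 0‖ ^ 2) := by
      rw [Real.log_pow]; norm_num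
    have f4 : angle.real S * Real.log κ + (1 - angle.real S) * Real.log K ≤
        a * Real.log κ + (1 - a) * Real.log K := by nlinarith
    have f5 : Real.log (‖G 0‖ ^ 2) ≤ 1 + (a * Real.log κ + (1 - a) * Real.log K) := by
      rw [← hlogG]
      nlinarith
    have hG0 : 0 < ‖G 0‖ ^ 2 := by positivity
    rw [Real.log_le_iff_le_exp hG0] at f5
    refine f5.trans (le_of_eq ?_)
    rw [Real.exp_add, Real.exp_add, mul_comm a, mul_comm (1 - a), ← Real.rpow_def_of_pos hκ,
      ← Real.rpow_def_of_pos hK]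
  have hcont : Tendsto (fun ε : ℝ => exp 1 * ((US + ε) ^ a * (U + ε) ^ (1 - a))) (𝓝[>] 0)
      (𝓝 (exp 1 * ((US + 0) ^ a * (U + 0) ^ (1 - a)))) := by
    apply Tendsto.mono_left _ nhdsWithin_le_nhds
    apply ContinuousAt.tendsto (f := fun ε : ℝ => exp 1 * ((US + ε) ^ a * (U + ε) ^ (1 - a)))
    refine continuousAt_const.mul (ContinuousAt.mul ?_ ?_)
    · exact (continuousAt_const.add continuousAt_id).rpow_const (Or.inr ha0.le)
    · exact (continuousAt_const.add continuousAt_id).rpow_const (Or.inr (by linarith))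
  rw [add_zero, add_zero] at hcont
  refine ge_of_tendsto hcont ?_
  filter_upwards [self_mem_nhdsWithin] with ε hε using step ε hε

end Helper77.TA
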