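import Mathlib

open MeasureTheory FourierTransform SchwartzMap

namespace Helper77.TA

variable {V : Type*} [NormedAddCommGroup V] [InnerProductSpace ℝ V] [FiniteDimensional ℝ V]
  [MeasurableSpace V] [BorelSpace V]

/-- The inverse Fourier integral of an integrable function is continuous. -/
theorem continuous_fourierInv {g : V → ℂ} (h1 : Integrable g) : Continuous (𝓕⁻ g) := by
  have := VectorFourier.fourierIntegral_continuous (V := V) (W := V) (μ := volume)
    Real.continuous_fourierChar (L := -innerₗ V)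
    (by
      simp only [LinearMap.neg_apply, innerₗ_apply_apply]
      fun_prop) h1
  exact this

/-- The `L²` inverse Fourier transform agrees with the inverse Fourier integral on `L¹ ∩ L²`. -/
theorem fourierInv_toLp_ae {g : V → ℂ} (h1 : Integrable g) (h2 : MemLp g 2) :
    ((𝓕⁻ (h2.toLp g) : Lp (α := V) ℂ 2) : V → ℂ) =ᵐ[volume] 𝓕⁻ g := by
  apply ae_eq_of_integral_contDiff_smul_eq
  · exact (Lp.memLp _).locallyIntegrable (by norm_num)
  · exact (continuous_fourierInv h1).locallyIntegrable
  · intro φ hφ hc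
    have hc' : HasCompactSupport (fun x : V => ((φ x : ℝ) : ℂ)) :=
      hc.comp_left (g := fun r : ℝ => (r : ℂ)) (by simp)
    have hφ' : ContDiff ℝ (⊤ : ℕ∞) (fun x : V => ((φ x : ℝ) : ℂ)) :=
      Complex.ofRealCLM.contDiff.comp hφ
    let ψ : 𝓢(V, ℂ) := hc'.toSchwartzMap hφ'
    have hψ : ∀ x, ψ x = ((φ x : ℝ) : ℂ) := fun x => rfl
    have e1 := Lp.fourierInv_toTemperedDistribution_eq (h2.toLp g)
    have e2 := DFunLike.congr_fun e1 ψ
    rw [TemperedDistribution.fourierInv_apply, Lp.toTemperedDistribution_apply,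
      Lp.toTemperedDistribution_apply] at e2
    have e3 : ∫ x, φ x • ((𝓕⁻ (h2.toLp g) : Lp (α := V) ℂ 2 volume) : V → ℂ) x =
        ∫ x, ψ x • ((𝓕⁻ (h2.toLp g) : Lp (α := V) ℂ 2 volume) : V → ℂ) x := by
      congr 1
    rw [e3, ← e2]
    have e4 : ∫ x, (𝓕⁻ ψ) x • ((h2.toLp g : Lp (α := V) ℂ 2 volume) : V → ℂ) x =
        ∫ x, (𝓕⁻ ψ) x • g x := by
      apply integral_congr_ae
      filter_upwards [h2.coeFn_toLp] with x hx
      rw [hx]
    rw [e4]
    have e5 := VectorFourier.integral_fourierIntegral_smul_eq_flip (V := V) (W := V)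
      (μ := volume) (ν := volume) (f := (ψ : V → ℂ)) (g := g)
      Real.continuous_fourierChar (L := -innerₗ V)
      (by
        simp only [LinearMap.neg_apply, innerₗ_apply_apply]
        fun_prop) ψ.integrable h1
    have e6 : ∀ x, (𝓕⁻ ψ) x = VectorFourier.fourierIntegral 𝐞 volume (-innerₗ V) (ψ : V → ℂ) x := by
      intro x
      rw [SchwartzMap.fourierInv_coe]
      rfl
    have e7 : ∀ x, (𝓕⁻ g) x = VectorFourier.fourierIntegral 𝐞 volume (-innerₗ V).flip g x := by
      intro x
      have : (-innerₗ V).flip = -innerₗ V := by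
        ext a b
        simp [real_inner_comm]
      rw [this]
      rfl
    simp_rw [e6, e7]
    rw [e5]
    congr 1

end Helper77.TA
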