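import Pool.Agent.Helper77.TA.Cauchy
import Pool.Agent.Helper77.TA.Planch

open MeasureTheory Filter Topology Real Metric FourierTransform
open scoped ENNReal NNReal InnerProductSpace

namespace Helper77.TA

variable {V : Type*} [NormedAddCommGroup V] [InnerProductSpace ℝ V] [FiniteDimensional ℝ V]
  [MeasurableSpace V] [BorelSpace V]

theorem norm_cexp_le {z : ℂ} {s : ℝ} (hz : 0 ≤ z.im) (hs : 0 ≤ s) :
    ‖Complex.exp (2 * π * Complex.I * z * s)‖ ≤ 1 := by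
  rw [Complex.norm_exp]
  have h : (2 * π * Complex.I * z * s : ℂ).re = -(2 * π * (z.im * s)) := by
    simp [Complex.mul_re, Complex.mul_im]
    ring
  rw [h]
  apply Real.exp_le_one_iff.mpr
  have := mul_nonneg hz hs
  have := Real.pi_pos
  nlinarith

/-- The one-sided extension is entire. -/
theorem differentiable_ext {G : V → ℂ} (hG : Integrable G) {σ : V → ℝ} (hσ : Continuous σ)
    {S : ℝ} (h : ∀ ξ, G ξ ≠ 0 → 0 ≤ σ ξ ∧ σ ξ ≤ S) :
    Differentiable ℂ (fun z : ℂ => ∫ ξ, Complex.exp (2 * π * Complex.I * z * σ ξ) * G ξ) := by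
  intro z₀
  have key := hasDerivAt_integral_of_dominated_loc_of_deriv_le (𝕜 := ℂ) (μ := (volume : Measure V))
    (F := fun (z : ℂ) ξ => Complex.exp (2 * π * Complex.I * z * σ ξ) * G ξ)
    (F' := fun (z : ℂ) ξ => (Complex.exp (2 * π * Complex.I * z * σ ξ) *
      (2 * π * Complex.I * σ ξ)) * G ξ) (x₀ := z₀) (s := ball z₀ 1)
    (bound := fun ξ => (Real.exp (2 * π * (‖z₀‖ + 1) * S) * (2 * π * S)) * ‖G ξ‖)
    (ball_mem_nhds z₀ one_pos)
    (by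
      filter_upwards with z
      refine AEStronglyMeasurable.mul ?_ hG.aestronglyMeasurable
      apply Continuous.aestronglyMeasurable
      fun_prop)
    (by
      have : Continuous fun ξ => Complex.exp (2 * π * Complex.I * z₀ * σ ξ) := by fun_prop
      refine Integrable.mono' (hG.norm.const_mul (Real.exp (2 * π * ‖z₀‖ * S)))
        (this.aestronglyMeasurable.mul hG.aestronglyMeasurable) ?_
      filter_upwards with ξ
      by_cases h0 : G ξ = 0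
      · simp [h0]
      · rw [norm_mul]
        gcongr
        rw [Complex.norm_exp]
        apply Real.exp_le_exp.mpr
        obtain ⟨h1, h2⟩ := h ξ h0
        calc (2 * π * Complex.I * z₀ * σ ξ : ℂ).re ≤ ‖(2 * π * Complex.I * z₀ * σ ξ : ℂ)‖ :=
              Complex.re_le_norm _
          _ = 2 * π * ‖z₀‖ * σ ξ := by
              simp [abs_of_nonneg h1, abs_of_pos Real.pi_pos]
          _ ≤ _ := by gcongr)
    (by
      refine AEStronglyMeasurable.mul ?_ hG.aestronglyMeasurable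
      apply Continuous.aestronglyMeasurable
      fun_prop)
    (by
      filter_upwards with ξ z hz
      by_cases h0 : G ξ = 0
      · simp [h0]
      · obtain ⟨h1, h2⟩ := h ξ h0
        rw [norm_mul, norm_mul]
        have hz' : ‖z‖ ≤ ‖z₀‖ + 1 := by
          rw [mem_ball, dist_eq_norm] at hz
          have := norm_sub_norm_le z z₀
          linarith
        have e1 : ‖(2 * π * Complex.I * σ ξ : ℂ)‖ ≤ 2 * π * S := by
          have : ‖(2 * π * Complex.I * σ ξ : ℂ)‖ = 2 * π * σ ξ := by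
            simp [abs_of_nonneg h1, abs_of_pos Real.pi_pos]
          rw [this]; gcongr
        have e2 : ‖Complex.exp (2 * π * Complex.I * z * σ ξ)‖ ≤
            Real.exp (2 * π * (‖z₀‖ + 1) * S) := by
          rw [Complex.norm_exp]
          apply Real.exp_le_exp.mpr
          calc (2 * π * Complex.I * z * σ ξ : ℂ).re ≤ ‖(2 * π * Complex.I * z * σ ξ : ℂ)‖ :=
                Complex.re_le_norm _
            _ = 2 * π * ‖z‖ * σ ξ := by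
                simp [abs_of_nonneg h1, abs_of_pos Real.pi_pos]
            _ ≤ _ := by gcongr
        gcongr)
    (hG.norm.const_mul _)
    (by
      filter_upwards with ξ z _
      refine HasDerivAt.mul_const (HasDerivAt.cexp ?_) (G ξ)
      have h1 : HasDerivAt (fun z : ℂ => 2 * π * Complex.I * z) (2 * π * Complex.I * 1) z :=
        (hasDerivAt_id z).const_mul _
      have h2 := h1.mul_const (σ ξ : ℂ)
      rw [mul_one] at h2
      exact h2)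
  exact key.2.differentiableAt

theorem bound_ext {G : V → ℂ} (hG : Integrable G) {σ : V → ℝ}
    (h : ∀ ξ, G ξ ≠ 0 → 0 ≤ σ ξ) {z : ℂ} (hz : 0 ≤ z.im) :
    ‖∫ ξ, Complex.exp (2 * π * Complex.I * z * σ ξ) * G ξ‖ ≤ ∫ ξ, ‖G ξ‖ := by
  apply norm_integral_le_of_norm_le hG.norm
  filter_upwards with ξ
  by_cases h0 : G ξ = 0
  · simp [h0]
  · rw [norm_mul]
    have := norm_cexp_le (z := z) hz (h ξ h0)
    nlinarith [norm_nonneg (G ξ)]

theorem fourierInv_formula (g : V → ℂ) (x : V) :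
    𝓕⁻ g x = ∫ ξ, Complex.exp (2 * π * ⟪ξ, x⟫_ℝ * Complex.I) * g ξ := by
  rw [Real.fourierInv_eq']
  congr 1
  ext ξ
  rw [smul_eq_mul]
  push_cast
  rfl

/-- The exponentially damped spectrum in direction `ω`. -/
noncomputable def damp (g : V → ℂ) (ω : V) (ρ y : ℝ) (ξ : V) : ℂ :=
  ((Real.exp (-(2 * π * y * (ρ - ⟪ξ, ω⟫_ℝ))) : ℝ) : ℂ) * g ξ

/-- Jensen's inequality along one line. -/
theorem line_jensen {g : V → ℂ} (h1 : Integrable g) {ω : V} {ρ S : ℝ}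
    (hsupp : ∀ ξ, g ξ ≠ 0 → 0 ≤ ρ - ⟪ξ, ω⟫_ℝ ∧ ρ - ⟪ξ, ω⟫_ℝ ≤ S)
    {E : Set V} (hE : MeasurableSet E) {y a : ℝ} (hy : 0 < y) (ha0 : 0 < a) (ha1 : a < 1) (x : V)
    (hd : a ≤ angle.real {θ | x - bdry y θ • ω ∈ E}) :
    ‖𝓕⁻ (damp g ω ρ y) x‖ₑ ^ 2 ≤ ENNReal.ofReal (exp 1) *
      ((∫⁻ θ, E.indicator (fun v => ‖𝓕⁻ g v‖ₑ ^ 2) (x - bdry y θ • ω) ∂angle) ^ a *
      (∫⁻ θ, ‖𝓕⁻ g (x - bdry y θ • ω)‖ₑ ^ 2 ∂angle) ^ (1 - a)) := by
  set G : V → ℂ := fun ξ => Complex.exp (2 * π * ⟪ξ, x⟫_ℝ * Complex.I) * g ξ with hG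
  have hnG : ∀ ξ, ‖G ξ‖ = ‖g ξ‖ := by
    intro ξ
    rw [hG]
    simp only [norm_mul]
    have : (2 * π * ⟪ξ, x⟫_ℝ * Complex.I : ℂ) = ((2 * π * ⟪ξ, x⟫_ℝ : ℝ) : ℂ) * Complex.I := by
      push_cast; ring
    rw [this, Complex.norm_exp_ofReal_mul_I, one_mul]
  have hGi : Integrable G := by
    refine Integrable.mono' h1.norm ?_ (Eventually.of_forall fun ξ => (hnG ξ).le)
    refine AEStronglyMeasurable.mul ?_ h1.aestronglyMeasurable
    apply Continuous.aestronglyMeasurable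
    fun_prop
  have hG0 : ∀ ξ, G ξ ≠ 0 → g ξ ≠ 0 := by
    intro ξ h h0
    apply h
    rw [hG]; simp [h0]
  set σ : V → ℝ := fun ξ => ρ - ⟪ξ, ω⟫_ℝ with hσ
  have hσc : Continuous σ := by fun_prop
  set h : ℂ → ℂ := fun z => ∫ ξ, Complex.exp (2 * π * Complex.I * z * σ ξ) * G ξ with hh
  have hdiff : Differentiable ℂ h := differentiable_ext hGi hσc (S := S)
    fun ξ hξ => hsupp ξ (hG0 ξ hξ)
  have hbound : ∀ z : ℂ, 0 ≤ z.im → ‖h z‖ ≤ ∫ ξ, ‖G ξ‖ := fun z hz =>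
    bound_ext hGi (fun ξ hξ => (hsupp ξ (hG0 ξ hξ)).1) hz
  have hreal : ∀ t : ℝ, ‖h (t : ℂ)‖ = ‖𝓕⁻ g (x - t • ω)‖ := by
    intro t
    have e1 : h (t : ℂ) = Complex.exp (((2 * π * t * ρ : ℝ) : ℂ) * Complex.I) *
        𝓕⁻ g (x - t • ω) := by
      rw [fourierInv_formula, ← integral_const_mul]
      refine integral_congr_ae (Eventually.of_forall fun ξ => ?_)
      simp only [hG, hσ]
      rw [← mul_assoc, ← mul_assoc, ← Complex.exp_add, ← Complex.exp_add, inner_sub_right,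
        inner_smul_right]
      congr 2
      push_cast
      ring
    rw [e1, norm_mul, Complex.norm_exp_ofReal_mul_I, one_mul]
  have himag : h (Complex.I * y) = 𝓕⁻ (damp g ω ρ y) x := by
    rw [fourierInv_formula]
    refine integral_congr_ae (Eventually.of_forall fun ξ => ?_)
    simp only [hG, hσ, damp]
    have e2 : (2 * π * Complex.I * (Complex.I * y) * ((ρ - ⟪ξ, ω⟫_ℝ : ℝ) : ℂ) : ℂ) =
        ((-(2 * π * y * (ρ - ⟪ξ, ω⟫_ℝ)) : ℝ) : ℂ) := by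
      push_cast
      ring_nf
      rw [Complex.I_sq]
      ring
    rw [e2, ← Complex.ofReal_exp]
    ring
  set SS : Set ℝ := {θ | x - bdry y θ • ω ∈ E} with hSS
  have hmeas : Measurable fun θ : ℝ => x - bdry y θ • ω :=
    measurable_const.sub ((measurable_bdry y).smul_const ω)
  have hSm : MeasurableSet SS := hmeas hE
  have key := halfplane_two_const hdiff hbound hy hSm ha0 ha1 hd
  simp only [hreal] at key
  rw [himag] at key
  have hFc : Continuous (𝓕⁻ g) := continuous_fourierInv h1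
  have hFb : ∀ v, ‖𝓕⁻ g v‖ ≤ ∫ ξ, ‖g ξ‖ := by
    intro v
    rw [fourierInv_formula]
    apply norm_integral_le_of_norm_le h1.norm
    filter_upwards with ξ
    have : (2 * π * ⟪ξ, v⟫_ℝ * Complex.I : ℂ) = ((2 * π * ⟪ξ, v⟫_ℝ : ℝ) : ℂ) * Complex.I := by
      push_cast; ring
    rw [norm_mul, this, Complex.norm_exp_ofReal_mul_I, one_mul]
  have hint : Integrable (fun θ => ‖𝓕⁻ g (x - bdry y θ • ω)‖ ^ 2) angle := by
    refine Integrable.of_bound ?_ ((∫ ξ, ‖g ξ‖) ^ 2) (Eventually.of_forall fun θ => ?_)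
    · exact ((hFc.measurable.comp hmeas).norm.pow_const 2).aestronglyMeasurable
    · rw [Real.norm_of_nonneg (by positivity)]
      have := hFb (x - bdry y θ • ω)
      gcongr
  have c1 : ENNReal.ofReal (∫ θ, ‖𝓕⁻ g (x - bdry y θ • ω)‖ ^ 2 ∂angle) =
      ∫⁻ θ, ‖𝓕⁻ g (x - bdry y θ • ω)‖ₑ ^ 2 ∂angle := by
    rw [ofReal_integral_eq_lintegral_ofReal hint (Eventually.of_forall fun θ => by positivity)]
    congr 1
    ext θ
    rw [ENNReal.ofReal_pow (norm_nonneg _), ofReal_norm]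
  have c2 : ENNReal.ofReal (∫ θ in SS, ‖𝓕⁻ g (x - bdry y θ • ω)‖ ^ 2 ∂angle) =
      ∫⁻ θ, E.indicator (fun v => ‖𝓕⁻ g v‖ₑ ^ 2) (x - bdry y θ • ω) ∂angle := by
    rw [ofReal_integral_eq_lintegral_ofReal hint.integrableOn
      (Eventually.of_forall fun θ => by positivity), ← lintegral_indicator hSm]
    congr 1
    ext θ
    by_cases hθ : x - bdry y θ • ω ∈ E
    · have hθ' : θ ∈ SS := hθ
      rw [Set.indicator_of_mem hθ, Set.indicator_of_mem hθ', ENNReal.ofReal_pow (norm_nonneg _),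
        ofReal_norm]
    · have hθ' : θ ∉ SS := hθ
      rw [Set.indicator_of_notMem hθ, Set.indicator_of_notMem hθ']
  rw [← c1, ← c2, ENNReal.ofReal_rpow_of_nonneg (integral_nonneg fun θ => by positivity) ha0.le,
    ENNReal.ofReal_rpow_of_nonneg (integral_nonneg fun θ => by positivity) (by linarith),
    ← ENNReal.ofReal_mul (by positivity), ← ENNReal.ofReal_mul (exp_pos 1).le,
    ← ofReal_norm, ← ENNReal.ofReal_pow (norm_nonneg _)]
  exact ENNReal.ofReal_le_ofReal key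

/-- Averages over shifts preserve integrals. -/
theorem lintegral_shift (ω : V) (y : ℝ) {k : V → ℝ≥0∞} (hk : Measurable k) :
    ∫⁻ x, ∫⁻ θ, k (x - bdry y θ • ω) ∂angle = ∫⁻ x, k x := by
  have hm : Measurable fun p : V × ℝ => p.1 - bdry y p.2 • ω :=
    measurable_fst.sub (((measurable_bdry y).comp measurable_snd).smul_const ω)
  rw [lintegral_lintegral_swap (f := fun x θ => k (x - bdry y θ • ω)) (hk.comp hm).aemeasurable]
  have : ∀ θ, ∫⁻ x, k (x - bdry y θ • ω) = ∫⁻ x, k x := by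
    intro θ
    exact lintegral_sub_right_eq_self k _
  simp_rw [this]
  rw [lintegral_const, measure_univ, mul_one]

/-- Plancherel for `L¹ ∩ L²`. -/
theorem plancherel {g : V → ℂ} (h1 : Integrable g) (h2 : MemLp g 2) :
    ∫⁻ x, ‖𝓕⁻ g x‖ₑ ^ 2 = ∫⁻ ξ, ‖g ξ‖ₑ ^ 2 := by
  have e1 : eLpNorm (𝓕⁻ g) 2 volume = eLpNorm g 2 volume := by
    rw [← eLpNorm_congr_ae (fourierInv_toLp_ae h1 h2)]
    have h3 : ‖(𝓕⁻ (h2.toLp g) : Lp (α := V) ℂ 2 volume)‖ = ‖h2.toLp g‖ :=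
      (Lp.fourierTransformₗᵢ V ℂ).symm.norm_map _
    rw [Lp.norm_def, Lp.norm_def, ENNReal.toReal_eq_toReal_iff' (Lp.eLpNorm_ne_top _)
      (Lp.eLpNorm_ne_top _)] at h3
    rw [h3]
    exact eLpNorm_congr_ae h2.coeFn_toLp
  have e2 := eLpNorm_nnreal_pow_eq_lintegral (f := 𝓕⁻ g) (p := 2) (μ := (volume : Measure V))
    two_ne_zero
  have e3 := eLpNorm_nnreal_pow_eq_lintegral (f := g) (p := 2) (μ := (volume : Measure V))
    two_ne_zero
  norm_num at e2 e3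
  rw [← e2, ← e3, e1]

omit [FiniteDimensional ℝ V] [MeasurableSpace V] [BorelSpace V] in
theorem norm_damp_le {g : V → ℂ} {ω : V} {ρ y : ℝ} (hy : 0 ≤ y)
    (hsupp : ∀ ξ, g ξ ≠ 0 → 0 ≤ ρ - ⟪ξ, ω⟫_ℝ) (ξ : V) : ‖damp g ω ρ y ξ‖ ≤ ‖g ξ‖ := by
  by_cases h0 : g ξ = 0
  · simp [damp, h0]
  · rw [damp, norm_mul, Complex.norm_real, Real.norm_of_nonneg (exp_pos _).le]
    have h1 : Real.exp (-(2 * π * y * (ρ - ⟪ξ, ω⟫_ℝ))) ≤ 1 := by
      apply Real.exp_le_one_iff.mpr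
      have := hsupp ξ h0
      have : 0 ≤ 2 * π * y * (ρ - ⟪ξ, ω⟫_ℝ) := by positivity
      linarith
    nlinarith [norm_nonneg (g ξ)]

omit [FiniteDimensional ℝ V] [MeasurableSpace V] [BorelSpace V] in
theorem continuous_dampFactor (ω : V) (ρ y : ℝ) :
    Continuous fun ξ : V => ((Real.exp (-(2 * π * y * (ρ - ⟪ξ, ω⟫_ℝ))) : ℝ) : ℂ) := by
  fun_prop

/-- The inequality in one direction. -/
theorem one_direction {g : V → ℂ} (h1 : Integrable g) (h2 : MemLp g 2) {ω : V} {ρ S : ℝ}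
    (hsupp : ∀ ξ, g ξ ≠ 0 → 0 ≤ ρ - ⟪ξ, ω⟫_ℝ ∧ ρ - ⟪ξ, ω⟫_ℝ ≤ S)
    {E : Set V} (hE : MeasurableSet E) {y a : ℝ} (hy : 0 < y) (ha0 : 0 < a) (ha1 : a < 1)
    (hd : ∀ᵐ x, a ≤ angle.real {θ | x - bdry y θ • ω ∈ E}) :
    ∫⁻ ξ, ‖damp g ω ρ y ξ‖ₑ ^ 2 ≤ ENNReal.ofReal (exp 1) *
      ((∫⁻ v in E, ‖𝓕⁻ g v‖ₑ ^ 2) ^ a * (∫⁻ v, ‖𝓕⁻ g v‖ₑ ^ 2) ^ (1 - a)) := by
  have hle := norm_damp_le (g := g) hy.le (fun ξ hξ => (hsupp ξ hξ).1)
  have hm : AEStronglyMeasurable (damp g ω ρ y) volume :=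
    (continuous_dampFactor ω ρ y).aestronglyMeasurable.mul h1.aestronglyMeasurable
  have d1 : Integrable (damp g ω ρ y) :=
    Integrable.mono h1 hm (Eventually.of_forall hle)
  have d2 : MemLp (damp g ω ρ y) 2 := h2.mono hm (Eventually.of_forall hle)
  rw [← plancherel d1 d2]
  have hk : Measurable fun v => ‖𝓕⁻ g v‖ₑ ^ 2 :=
    ((continuous_fourierInv h1).measurable.enorm).pow_const 2
  have hkE : Measurable (E.indicator fun v => ‖𝓕⁻ g v‖ₑ ^ 2) := hk.indicator hE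
  have hmap : Measurable fun p : V × ℝ => p.1 - bdry y p.2 • ω :=
    measurable_fst.sub (((measurable_bdry y).comp measurable_snd).smul_const ω)
  have mA : Measurable fun x => ∫⁻ θ, E.indicator (fun v => ‖𝓕⁻ g v‖ₑ ^ 2)
      (x - bdry y θ • ω) ∂angle :=
    Measurable.lintegral_prod_right' (f := fun p : V × ℝ =>
      E.indicator (fun v => ‖𝓕⁻ g v‖ₑ ^ 2) (p.1 - bdry y p.2 • ω)) (hkE.comp hmap)
  have mB : Measurable fun x => ∫⁻ θ, ‖𝓕⁻ g (x - bdry y θ • ω)‖ₑ ^ 2 ∂angle :=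
    Measurable.lintegral_prod_right' (f := fun p : V × ℝ =>
      ‖𝓕⁻ g (p.1 - bdry y p.2 • ω)‖ₑ ^ 2) (hk.comp hmap)
  calc ∫⁻ x, ‖𝓕⁻ (damp g ω ρ y) x‖ₑ ^ 2
      ≤ ∫⁻ x, ENNReal.ofReal (exp 1) *
        ((∫⁻ θ, E.indicator (fun v => ‖𝓕⁻ g v‖ₑ ^ 2) (x - bdry y θ • ω) ∂angle) ^ a *
        (∫⁻ θ, ‖𝓕⁻ g (x - bdry y θ • ω)‖ₑ ^ 2 ∂angle) ^ (1 - a)) :=
        lintegral_mono_ae (by
          filter_upwards [hd] with x hx
          exact line_jensen h1 hsupp hE hy ha0 ha1 x hx)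
    _ = ENNReal.ofReal (exp 1) * ∫⁻ x,
        ((∫⁻ θ, E.indicator (fun v => ‖𝓕⁻ g v‖ₑ ^ 2) (x - bdry y θ • ω) ∂angle) ^ a *
        (∫⁻ θ, ‖𝓕⁻ g (x - bdry y θ • ω)‖ₑ ^ 2 ∂angle) ^ (1 - a)) := by
        rw [lintegral_const_mul]
        exact (mA.pow_const _).mul (mB.pow_const _)
    _ ≤ ENNReal.ofReal (exp 1) *
        ((∫⁻ x, ∫⁻ θ, E.indicator (fun v => ‖𝓕⁻ g v‖ₑ ^ 2) (x - bdry y θ • ω) ∂angle) ^ a *
        (∫⁻ x, ∫⁻ θ, ‖𝓕⁻ g (x - bdry y θ • ω)‖ₑ ^ 2 ∂angle) ^ (1 - a)) := by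
        gcongr
        exact ENNReal.lintegral_mul_norm_pow_le mA.aemeasurable mB.aemeasurable ha0.le
          (by linarith) (by linarith)
    _ = _ := by
        rw [lintegral_shift ω y hkE, lintegral_shift ω y hk, lintegral_indicator hE]

/-- The cap inequality for `L¹ ∩ L²` spectra. -/
theorem caps_aux {g : V → ℂ} (h1 : Integrable g) (h2 : MemLp g 2) {ι : Type*} [Fintype ι]
    (ω : ι → V) (hω : ∀ j, ‖ω j‖ = 1) {ρ c₀ : ℝ}
    (hball : ∀ ξ, g ξ ≠ 0 → ‖ξ‖ ≤ ρ)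
    (hcov : ∀ ξ, g ξ ≠ 0 → ∃ j, ρ - c₀ ≤ ⟪ξ, ω j⟫_ℝ)
    {E : Set V} (hE : MeasurableSet E) {y a : ℝ} (hy : 0 < y) (ha0 : 0 < a) (ha1 : a < 1)
    (hd : ∀ j, ∀ᵐ x, a ≤ angle.real {θ | x - bdry y θ • ω j ∈ E}) :
    ∫⁻ ξ, ‖g ξ‖ₑ ^ 2 ≤ ENNReal.ofReal (Fintype.card ι * exp (1 + 4 * π * y * c₀)) *
      ((∫⁻ v in E, ‖𝓕⁻ g v‖ₑ ^ 2) ^ a * (∫⁻ v, ‖𝓕⁻ g v‖ₑ ^ 2) ^ (1 - a)) := by
  have hs : ∀ j ξ, g ξ ≠ 0 → 0 ≤ ρ - ⟪ξ, ω j⟫_ℝ ∧ ρ - ⟪ξ, ω j⟫_ℝ ≤ 2 * ρ := by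
    intro j ξ hξ
    have hb := hball ξ hξ
    have h3 := abs_le.mp (abs_real_inner_le_norm ξ (ω j))
    rw [hω j, mul_one] at h3
    constructor <;> linarith [h3.1, h3.2]
  have step : ∀ j, ∫⁻ ξ, ‖damp g (ω j) ρ y ξ‖ₑ ^ 2 ≤ ENNReal.ofReal (exp 1) *
      ((∫⁻ v in E, ‖𝓕⁻ g v‖ₑ ^ 2) ^ a * (∫⁻ v, ‖𝓕⁻ g v‖ₑ ^ 2) ^ (1 - a)) := fun j =>
    one_direction h1 h2 (hs j) hE hy ha0 ha1 (hd j)
  have hm : ∀ j, AEMeasurable (fun ξ => ‖damp g (ω j) ρ y ξ‖ₑ ^ 2) volume := by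
    intro j
    have hm : AEStronglyMeasurable (damp g (ω j) ρ y) volume :=
      (continuous_dampFactor (ω j) ρ y).aestronglyMeasurable.mul h1.aestronglyMeasurable
    exact hm.enorm.pow_const 2
  have hpt : ∀ ξ, ‖g ξ‖ₑ ^ 2 ≤ ENNReal.ofReal (exp (4 * π * y * c₀)) *
      ∑ j, ‖damp g (ω j) ρ y ξ‖ₑ ^ 2 := by
    intro ξ
    by_cases h0 : g ξ = 0
    · simp [h0]
    · obtain ⟨j, hj⟩ := hcov ξ h0
      have e1 : ‖g ξ‖ₑ ^ 2 ≤ ENNReal.ofReal (exp (4 * π * y * c₀)) *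
          ‖damp g (ω j) ρ y ξ‖ₑ ^ 2 := by
        rw [← ofReal_norm, ← ofReal_norm, ← ENNReal.ofReal_pow (norm_nonneg _),
          ← ENNReal.ofReal_pow (norm_nonneg _), ← ENNReal.ofReal_mul (exp_pos _).le]
        apply ENNReal.ofReal_le_ofReal
        rw [damp, norm_mul, Complex.norm_real, Real.norm_of_nonneg (exp_pos _).le, mul_pow,
          ← mul_assoc, ← Real.exp_nat_mul, ← Real.exp_add]
        have e2 : 1 ≤ Real.exp (4 * π * y * c₀ +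
            ((2 : ℕ) : ℝ) * -(2 * π * y * (ρ - ⟪ξ, ω j⟫_ℝ))) := by
          apply Real.one_le_exp
          have e3 : 4 * π * y * c₀ + ((2 : ℕ) : ℝ) * -(2 * π * y * (ρ - ⟪ξ, ω j⟫_ℝ)) =
            4 * π * y * (c₀ - (ρ - ⟪ξ, ω j⟫_ℝ)) := by push_cast; ring
          rw [e3]
          have : 0 ≤ c₀ - (ρ - ⟪ξ, ω j⟫_ℝ) := by linarith
          positivity
        nlinarith [sq_nonneg ‖g ξ‖]
      refine e1.trans ?_
      gcongr
      exact Finset.single_le_sum (f := fun j => ‖damp g (ω j) ρ y ξ‖ₑ ^ 2)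
        (fun _ _ => zero_le) (Finset.mem_univ j)
  calc ∫⁻ ξ, ‖g ξ‖ₑ ^ 2 ≤ ∫⁻ ξ, ENNReal.ofReal (exp (4 * π * y * c₀)) *
      ∑ j, ‖damp g (ω j) ρ y ξ‖ₑ ^ 2 := lintegral_mono hpt
    _ = ENNReal.ofReal (exp (4 * π * y * c₀)) * ∑ j, ∫⁻ ξ, ‖damp g (ω j) ρ y ξ‖ₑ ^ 2 := by
      rw [lintegral_const_mul'' _ (Finset.aemeasurable_fun_sum _ fun j _ => hm j),
        lintegral_finsetSum' _ fun j _ => hm j]
    _ ≤ ENNReal.ofReal (exp (4 * π * y * c₀)) * ∑ _j : ι, ENNReal.ofReal (exp 1) *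
      ((∫⁻ v in E, ‖𝓕⁻ g v‖ₑ ^ 2) ^ a * (∫⁻ v, ‖𝓕⁻ g v‖ₑ ^ 2) ^ (1 - a)) := by
      gcongr with j
      exact step j
    _ = _ := by
      rw [Finset.sum_const, Finset.card_univ, nsmul_eq_mul, ← mul_assoc, ← mul_assoc]
      congr 1
      rw [← ENNReal.ofReal_natCast, ← ENNReal.ofReal_mul (exp_pos _).le,
        ← ENNReal.ofReal_mul (by positivity), Real.exp_add]
      congr 1
      ring

/-- Absorbing the total mass. -/
theorem absorb {X Y C : ℝ≥0∞} {a : ℝ} (ha0 : 0 < a) (ha1 : a < 1) (hX : X ≠ ∞)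
    (h : X ≤ C * (Y ^ a * X ^ (1 - a))) : X ≤ C ^ (1 / a) * Y := by
  by_cases hX0 : X = 0
  · rw [hX0]; exact zero_le
  have h1 : X ^ (1 - a) ≠ 0 := by
    rw [Ne, ENNReal.rpow_eq_zero_iff]
    push Not
    exact ⟨fun h => absurd h hX0, fun h => absurd h hX⟩
  have h2 : X ^ (1 - a) ≠ ∞ := ENNReal.rpow_ne_top_of_nonneg (by linarith) hX
  have h3 : X = X ^ a * X ^ (1 - a) := by
    rw [← ENNReal.rpow_add _ _ hX0 hX]
    simp
  have h4 : X ^ a ≤ C * Y ^ a := by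
    have h5 : X ^ a * X ^ (1 - a) ≤ (C * Y ^ a) * X ^ (1 - a) := by
      rw [← h3, mul_assoc]; exact h
    exact (ENNReal.mul_le_mul_iff_left h1 h2).mp h5
  have h6 : (X ^ a) ^ (1 / a) ≤ (C * Y ^ a) ^ (1 / a) :=
    ENNReal.rpow_le_rpow h4 (by positivity)
  rw [← ENNReal.rpow_mul, ENNReal.mul_rpow_of_nonneg _ _ (by positivity), ← ENNReal.rpow_mul,
    mul_one_div_cancel ha0.ne', ENNReal.rpow_one, ENNReal.rpow_one] at h6
  exact h6

end Helper77.TA
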