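import Pool.Agent.Helper77.TA.Gabor

open MeasureTheory Filter Topology Real Metric FourierTransform Module
open scoped ENNReal NNReal InnerProductSpace

namespace Helper77.TA

variable {V : Type*} [NormedAddCommGroup V] [InnerProductSpace ℝ V] [FiniteDimensional ℝ V]
  [MeasurableSpace V] [BorelSpace V]

omit [FiniteDimensional ℝ V] [MeasurableSpace V] [BorelSpace V] in
theorem dir_ineq {R h : ℝ} (hR : 0 ≤ R) {ξ η : V} (h1 : R ≤ ‖ξ‖)
    (h3 : ‖ξ - η‖ ^ 2 ≤ (1 + R) / 16) :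
    (R + h) - ⟪ξ, (‖η‖⁻¹ : ℝ) • η⟫_ℝ ≤ h + 2 := by
  rcases le_or_gt ‖ξ‖ 1 with hξ | hξ
  · have hu : ‖(‖η‖⁻¹ : ℝ) • η‖ ≤ 1 := by
      rw [norm_smul, norm_inv, norm_norm]
      exact inv_mul_le_one
    have h4 := abs_le.mp (abs_real_inner_le_norm ξ ((‖η‖⁻¹ : ℝ) • η))
    have h5 : ‖ξ‖ * ‖(‖η‖⁻¹ : ℝ) • η‖ ≤ ‖ξ‖ * 1 := mul_le_mul_of_nonneg_left hu (norm_nonneg _)
    linarith [h4.1]
  · have h4 : ‖ξ - η‖ ^ 2 ≤ ‖ξ‖ / 8 := by linarith
    have h5 : ‖ξ - η‖ ≤ ‖ξ‖ / 2 := by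
      have h6 : ‖ξ - η‖ ^ 2 ≤ (‖ξ‖ / 2) ^ 2 := by nlinarith
      exact (pow_le_pow_iff_left₀ (norm_nonneg _) (by positivity) two_ne_zero).mp h6
    have h6 : ‖ξ‖ / 2 ≤ ‖η‖ := by
      have := norm_sub_norm_le ξ η
      linarith
    have hη : 0 < ‖η‖ := by linarith
    have h7 : ‖ξ - η‖ ^ 2 = ‖ξ‖ ^ 2 - 2 * ⟪ξ, η⟫_ℝ + ‖η‖ ^ 2 := norm_sub_sq_real ξ η
    have h8 : ‖ξ‖ * ‖η‖ - ‖η‖ / 8 ≤ ⟪ξ, η⟫_ℝ := by nlinarith [sq_nonneg (‖ξ‖ - ‖η‖)]
    have h9 : ⟪ξ, (‖η‖⁻¹ : ℝ) • η⟫_ℝ = ⟪ξ, η⟫_ℝ / ‖η‖ := by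
      rw [inner_smul_right]
      field_simp
    have h10 : ‖ξ‖ - 1 / 8 ≤ ⟪ξ, η⟫_ℝ / ‖η‖ := by
      rw [le_div_iff₀ hη]
      linarith
    rw [h9]
    linarith

/-- The Gaussian-localised spectrum. -/
noncomputable def loc (g : V → ℂ) (S : ℝ) (η ξ : V) : ℂ := (gauss S η ξ : ℂ) * g ξ

omit [InnerProductSpace ℝ V] [FiniteDimensional ℝ V] [MeasurableSpace V] [BorelSpace V] in
theorem norm_loc_le {g : V → ℂ} {S : ℝ} (hS : 0 < S) (η ξ : V) : ‖loc g S η ξ‖ ≤ ‖g ξ‖ := by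
  rw [loc, norm_mul, Complex.norm_real, Real.norm_of_nonneg (gauss_pos _ _ _).le]
  have := gauss_le_one hS η ξ
  nlinarith [norm_nonneg (g ξ)]

omit [InnerProductSpace ℝ V] [FiniteDimensional ℝ V] [MeasurableSpace V] [BorelSpace V] in
theorem continuous_gauss (S : ℝ) (η : V) : Continuous (gauss S η) := by
  unfold gauss
  fun_prop

theorem integrable_loc {g : V → ℂ} {S : ℝ} (hS : 0 < S) (h1 : Integrable g) (η : V) :
    Integrable (loc g S η) := by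
  refine Integrable.mono h1 ?_ (Eventually.of_forall (norm_loc_le hS η))
  refine AEStronglyMeasurable.mul ?_ h1.aestronglyMeasurable
  apply Continuous.aestronglyMeasurable
  have := continuous_gauss S η
  fun_prop

theorem memLp_loc {g : V → ℂ} {S : ℝ} (hS : 0 < S) (h2 : MemLp g 2) (η : V) :
    MemLp (loc g S η) 2 := by
  refine MemLp.mono h2 ?_ (Eventually.of_forall (norm_loc_le hS η))
  refine AEStronglyMeasurable.mul ?_ h2.aestronglyMeasurable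
  apply Continuous.aestronglyMeasurable
  have := continuous_gauss S η
  fun_prop

/-- The left hand side, from below. -/
theorem lower_aux {g : V → ℂ} (hg : StronglyMeasurable g) {R h y : ℝ} (hR : 0 ≤ R)
    (hy : 0 < y) (hsupp : ∀ ξ, g ξ ≠ 0 → R ≤ ‖ξ‖ ∧ ‖ξ‖ ≤ R + h) :
    ENNReal.ofReal (Real.exp (-(π / 8 + 4 * π * y * (h + 2)))) *
      volume (ball (0 : V) (Real.sqrt (1 + R) / 4)) * ∫⁻ ξ, ‖g ξ‖ₑ ^ 2 ≤
    ∫⁻ η, ∫⁻ ξ, ‖damp (loc g (1 + R) η) ((‖η‖⁻¹ : ℝ) • η) (R + h) y ξ‖ₑ ^ 2 := by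
  have hS : 0 < 1 + R := by linarith
  set r : ℝ := Real.sqrt (1 + R) / 4 with hr
  have hr2 : r ^ 2 = (1 + R) / 16 := by
    rw [hr, div_pow, Real.sq_sqrt hS.le]; norm_num
  have hr0 : 0 < r := by positivity
  set c₀ : ℝ := Real.exp (-(π / 8 + 4 * π * y * (h + 2))) with hc₀
  have hpt : ∀ η ξ : V, (ball ξ r).indicator (fun _ => ENNReal.ofReal c₀ * ‖g ξ‖ₑ ^ 2) η ≤
      ‖damp (loc g (1 + R) η) ((‖η‖⁻¹ : ℝ) • η) (R + h) y ξ‖ₑ ^ 2 := by
    intro η ξ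
    by_cases hη : η ∈ ball ξ r
    · rw [Set.indicator_of_mem hη]
      by_cases h0 : g ξ = 0
      · simp [h0]
      · obtain ⟨e1, e2⟩ := hsupp ξ h0
        have e3 : ‖ξ - η‖ < r := by
          rw [mem_ball, dist_comm, dist_eq_norm] at hη; exact hη
        have e4 : ‖ξ - η‖ ^ 2 ≤ (1 + R) / 16 := by
          rw [← hr2]
          have := norm_nonneg (ξ - η)
          gcongr
        have e5 := dir_ineq (h := h) hR e1 e4
        rw [← ofReal_norm, ← ofReal_norm, ← ENNReal.ofReal_pow (norm_nonneg _),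
          ← ENNReal.ofReal_pow (norm_nonneg _), ← ENNReal.ofReal_mul (exp_pos _).le]
        apply ENNReal.ofReal_le_ofReal
        rw [damp, loc, norm_mul, norm_mul, Complex.norm_real, Complex.norm_real,
          Real.norm_of_nonneg (exp_pos _).le, Real.norm_of_nonneg (gauss_pos _ _ _).le,
          mul_pow, mul_pow, ← mul_assoc]
        apply mul_le_mul_of_nonneg_right _ (by positivity)
        rw [gauss, ← Real.exp_nat_mul, ← Real.exp_nat_mul, ← Real.exp_add]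
        apply Real.exp_le_exp.mpr
        have e6 : π * ‖ξ - η‖ ^ 2 / (1 + R) ≤ π / 16 := by
          rw [div_le_div_iff₀ hS (by norm_num)]
          have := Real.pi_pos
          nlinarith
        have e7 : 2 * π * y * ((R + h) - ⟪ξ, (‖η‖⁻¹ : ℝ) • η⟫_ℝ) ≤ 2 * π * y * (h + 2) :=
          mul_le_mul_of_nonneg_left e5 (by positivity)
        push_cast
        linarith
    · rw [Set.indicator_of_notMem hη]
      exact zero_le
  have hm : AEMeasurable (Function.uncurry fun η ξ : V =>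
      (ball ξ r).indicator (fun _ => ENNReal.ofReal c₀ * ‖g ξ‖ₑ ^ 2) η)
      (volume.prod volume) := by
    apply Measurable.aemeasurable
    have e1 : (Function.uncurry fun η ξ : V =>
      (ball ξ r).indicator (fun _ => ENNReal.ofReal c₀ * ‖g ξ‖ₑ ^ 2) η) =
      {p : V × V | dist p.1 p.2 < r}.indicator
        (fun p => ENNReal.ofReal c₀ * ‖g p.2‖ₑ ^ 2) := by
      ext ⟨η, ξ⟩
      simp only [Function.uncurry_apply_pair, Set.indicator, mem_ball, Set.mem_ofPred_eq]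
    rw [e1]
    have e2 : MeasurableSet {p : V × V | dist p.1 p.2 < r} :=
      (isOpen_lt (by fun_prop) continuous_const).measurableSet
    exact (((hg.measurable.enorm.pow_const 2).comp measurable_snd).const_mul _).indicator e2
  calc ENNReal.ofReal c₀ * volume (ball (0 : V) r) * ∫⁻ ξ, ‖g ξ‖ₑ ^ 2
      = ∫⁻ ξ, (ENNReal.ofReal c₀ * volume (ball (0 : V) r)) * ‖g ξ‖ₑ ^ 2 := by
        rw [lintegral_const_mul _ (hg.measurable.enorm.pow_const 2)]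
    _ = ∫⁻ ξ, ∫⁻ η, (ball ξ r).indicator (fun _ => ENNReal.ofReal c₀ * ‖g ξ‖ₑ ^ 2) η := by
        refine lintegral_congr fun ξ => ?_
        rw [lintegral_indicator measurableSet_ball, setLIntegral_const,
          Measure.addHaar_ball_center volume ξ r]
        ring
    _ = ∫⁻ η, ∫⁻ ξ, (ball ξ r).indicator (fun _ => ENNReal.ofReal c₀ * ‖g ξ‖ₑ ^ 2) η :=
        (lintegral_lintegral_swap hm).symm
    _ ≤ _ := lintegral_mono fun η => lintegral_mono fun ξ => hpt η ξ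

/-- The right hand side weight. -/
noncomputable def wt (S : ℝ) (z : V) : ℝ≥0∞ := ENNReal.ofReal (kern S z ^ 2)

omit [FiniteDimensional ℝ V] in
theorem measurable_wt (S : ℝ) : Measurable (wt (V := V) S) := by
  unfold wt
  exact (((continuous_kern S).pow 2).measurable).ennreal_ofReal

/-- The averaged inequality. -/
theorem neigh_aux {g : V → ℂ} (hg : StronglyMeasurable g) (h1 : Integrable g) (h2 : MemLp g 2)
    (hdim : 0 < finrank ℝ V) {R h : ℝ} (hR : 0 ≤ R)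
    (hsupp : ∀ ξ, g ξ ≠ 0 → R ≤ ‖ξ‖ ∧ ‖ξ‖ ≤ R + h)
    {E : Set V} (hE : MeasurableSet E) {y a : ℝ} (hy : 0 < y) (ha0 : 0 < a) (ha1 : a < 1)
    (hd : ∀ ω : V, ‖ω‖ = 1 → ∀ᵐ x, a ≤ angle.real {θ | x - bdry y θ • ω ∈ E}) :
    ENNReal.ofReal (Real.exp (-(π / 8 + 4 * π * y * (h + 2)))) *
      volume (ball (0 : V) (Real.sqrt (1 + R) / 4)) * ∫⁻ ξ, ‖g ξ‖ₑ ^ 2 ≤
    ENNReal.ofReal (exp 1) *
      ((∫⁻ z, wt (1 + R) z * ∫⁻ x in E, ‖𝓕⁻ g (x + z)‖ₑ ^ 2) ^ a *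
       ((∫⁻ z : V, wt (1 + R) z) * ∫⁻ ξ, ‖g ξ‖ₑ ^ 2) ^ (1 - a)) := by
  have hS : 0 < 1 + R := by linarith
  set S := 1 + R with hSdef
  have hnt : Nontrivial V := Module.nontrivial_of_finrank_pos hdim
  set k : V × V → ℝ≥0∞ := fun p => ‖𝓕⁻ (loc g S p.1) p.2‖ₑ ^ 2 with hk
  have hkm : Measurable k := by
    have := measurable_gabor S hg
    exact this.enorm.pow_const 2
  have hη0 : ∀ᵐ η : V, η ≠ 0 := by
    rw [ae_iff]
    simp
  have step : ∀ᵐ η : V, ∫⁻ ξ, ‖damp (loc g S η) ((‖η‖⁻¹ : ℝ) • η) (R + h) y ξ‖ₑ ^ 2 ≤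
      ENNReal.ofReal (exp 1) *
      ((∫⁻ x in E, k (η, x)) ^ a * (∫⁻ x, k (η, x)) ^ (1 - a)) := by
    filter_upwards [hη0] with η hη
    have hω : ‖(‖η‖⁻¹ : ℝ) • η‖ = 1 := by
      rw [norm_smul, norm_inv, norm_norm, inv_mul_cancel₀ (norm_ne_zero_iff.mpr hη)]
    refine one_direction (S := 2 * (R + h)) (integrable_loc hS h1 η) (memLp_loc hS h2 η) ?_ hE hy
      ha0 ha1 (hd _ hω)
    intro ξ hξ
    have hgξ : g ξ ≠ 0 := by
      intro h0
      apply hξ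
      rw [loc, h0, mul_zero]
    obtain ⟨e1, e2⟩ := hsupp ξ hgξ
    have h3 := abs_le.mp (abs_real_inner_le_norm ξ ((‖η‖⁻¹ : ℝ) • η))
    rw [hω, mul_one] at h3
    constructor <;> linarith [h3.1, h3.2]
  have mA : Measurable fun η => ∫⁻ x in E, k (η, x) :=
    Measurable.lintegral_prod_right' (ν := volume.restrict E) hkm
  have mB : Measurable fun η => ∫⁻ x, k (η, x) := Measurable.lintegral_prod_right' hkm
  have hF : ∀ x, ∫⁻ η, k (η, x) = ∫⁻ z, wt S z * ‖𝓕⁻ g (x + z)‖ₑ ^ 2 := fun x =>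
    gabor_plancherel hS h1 h2 x
  have hFc := continuous_fourierInv h1
  have hjm : Measurable fun p : V × V => wt S p.2 * ‖𝓕⁻ g (p.1 + p.2)‖ₑ ^ 2 := by
    have e1 : Measurable fun p : V × V => ‖𝓕⁻ g (p.1 + p.2)‖ₑ ^ 2 := by
      have : Continuous fun p : V × V => 𝓕⁻ g (p.1 + p.2) := by fun_prop
      exact this.measurable.enorm.pow_const 2
    exact ((measurable_wt S).comp measurable_snd).mul e1
  have swapA : ∀ μ : Measure V, SFinite μ → ∫⁻ η, ∫⁻ x, k (η, x) ∂μ =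
      ∫⁻ z, wt S z * ∫⁻ x, ‖𝓕⁻ g (x + z)‖ₑ ^ 2 ∂μ := by
    intro μ hμ
    rw [lintegral_lintegral_swap (f := fun η x => k (η, x)) hkm.aemeasurable]
    simp_rw [hF]
    rw [lintegral_lintegral_swap (f := fun x z => wt S z * ‖𝓕⁻ g (x + z)‖ₑ ^ 2)
      hjm.aemeasurable]
    refine lintegral_congr fun z => ?_
    rw [lintegral_const_mul]
    have : Continuous fun x : V => 𝓕⁻ g (x + z) := by fun_prop
    exact this.measurable.enorm.pow_const 2
  calc _ ≤ ∫⁻ η, ∫⁻ ξ, ‖damp (loc g S η) ((‖η‖⁻¹ : ℝ) • η) (R + h) y ξ‖ₑ ^ 2 :=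
        lower_aux hg hR hy hsupp
    _ ≤ ∫⁻ η, ENNReal.ofReal (exp 1) *
        ((∫⁻ x in E, k (η, x)) ^ a * (∫⁻ x, k (η, x)) ^ (1 - a)) := lintegral_mono_ae step
    _ = ENNReal.ofReal (exp 1) *
        ∫⁻ η, ((∫⁻ x in E, k (η, x)) ^ a * (∫⁻ x, k (η, x)) ^ (1 - a)) := by
        rw [lintegral_const_mul]
        exact (mA.pow_const _).mul (mB.pow_const _)
    _ ≤ ENNReal.ofReal (exp 1) *
        ((∫⁻ η, ∫⁻ x in E, k (η, x)) ^ a * (∫⁻ η, ∫⁻ x, k (η, x)) ^ (1 - a)) := by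
        gcongr
        exact ENNReal.lintegral_mul_norm_pow_le mA.aemeasurable mB.aemeasurable ha0.le
          (by linarith) (by linarith)
    _ = _ := by
        rw [swapA (volume.restrict E) inferInstance, swapA volume inferInstance]
        congr 3
        have e2 : ∀ z : V, ∫⁻ x, ‖𝓕⁻ g (x + z)‖ₑ ^ 2 = ∫⁻ ξ, ‖g ξ‖ₑ ^ 2 := by
          intro z
          rw [← plancherel h1 h2]
          exact lintegral_add_right_eq_self (fun x => ‖𝓕⁻ g x‖ₑ ^ 2) z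
        simp_rw [e2]
        rw [lintegral_mul_const _ (measurable_wt S)]

end Helper77.TA
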