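import Pool.Agent.Helper77.TA.Neigh

open MeasureTheory Filter Topology Real Metric FourierTransform Module
open scoped ENNReal NNReal InnerProductSpace

namespace Helper77.TA

variable {V : Type*} [NormedAddCommGroup V] [InnerProductSpace ℝ V] [FiniteDimensional ℝ V]
  [MeasurableSpace V] [BorelSpace V]

/-- The smoothed set is contained in a neighbourhood, up to a tail. -/
theorem y_bound {k : V → ℝ≥0∞} (_hk : Measurable k) {E : Set V} (hE : MeasurableSet E)
    (S δ : ℝ) :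
    ∫⁻ z, wt S z * ∫⁻ x in E, k (x + z) ≤
      (∫⁻ z : V, wt S z) * (∫⁻ x in thickening δ E, k x) +
        (∫⁻ z in {z : V | δ ≤ ‖z‖}, wt S z) * ∫⁻ x, k x := by
  have hT : MeasurableSet {z : V | δ ≤ ‖z‖} :=
    (isClosed_le continuous_const continuous_norm).measurableSet
  have hpt : ∀ z : V, wt S z * ∫⁻ x in E, k (x + z) ≤
      wt S z * (∫⁻ x in thickening δ E, k x) +
        {z : V | δ ≤ ‖z‖}.indicator (fun z => wt S z * ∫⁻ x, k x) z := by
    intro z
    by_cases hz : δ ≤ ‖z‖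
    · have hz' : z ∈ {z : V | δ ≤ ‖z‖} := hz
      rw [Set.indicator_of_mem hz']
      refine le_trans ?_ le_add_self
      refine mul_le_mul' le_rfl ?_
      calc ∫⁻ x in E, k (x + z) ≤ ∫⁻ x, k (x + z) := setLIntegral_le_lintegral _ _
        _ = ∫⁻ x, k x := lintegral_add_right_eq_self k z
    · have hz' : z ∉ {z : V | δ ≤ ‖z‖} := hz
      rw [Set.indicator_of_notMem hz', add_zero]
      push Not at hz
      refine mul_le_mul' le_rfl ?_
      calc ∫⁻ x in E, k (x + z) = ∫⁻ x, E.indicator (fun x => k (x + z)) x := by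
            rw [lintegral_indicator hE]
        _ ≤ ∫⁻ x, (thickening δ E).indicator k (x + z) := by
            apply lintegral_mono
            intro x
            by_cases hx : x ∈ E
            · have hxz : x + z ∈ thickening δ E := by
                rw [mem_thickening_iff]
                refine ⟨x, hx, ?_⟩
                rw [dist_eq_norm, add_sub_cancel_left]
                exact hz
              simp only [Set.indicator_of_mem hx, Set.indicator_of_mem hxz, le_refl]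
            · rw [Set.indicator_of_notMem hx]; exact zero_le
        _ = ∫⁻ x, (thickening δ E).indicator k x :=
            lintegral_add_right_eq_self (fun x => (thickening δ E).indicator k x) z
        _ = ∫⁻ x in thickening δ E, k x := by
            rw [lintegral_indicator isOpen_thickening.measurableSet]
  calc ∫⁻ z, wt S z * ∫⁻ x in E, k (x + z) ≤
      ∫⁻ z, (wt S z * (∫⁻ x in thickening δ E, k x) +
        {z : V | δ ≤ ‖z‖}.indicator (fun z => wt S z * ∫⁻ x, k x) z) := lintegral_mono hpt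
    _ = _ := by
      rw [lintegral_add_left ((measurable_wt S).mul_const _),
        lintegral_mul_const _ (measurable_wt S), lintegral_indicator hT,
        lintegral_mul_const _ (measurable_wt S)]

theorem lintegral_gaussian {b : ℝ} (hb : 0 < b) (c : ℝ) (hc : 0 ≤ c) :
    ∫⁻ z : V, ENNReal.ofReal (c * Real.exp (-(b * ‖z‖ ^ 2))) =
      ENNReal.ofReal (c * (π / b) ^ ((finrank ℝ V : ℝ) / 2)) := by
  have h1 := GaussianFourier.integral_rexp_neg_mul_sq_norm (V := V) hb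
  have h2 := (integrable_gaussian (V := V) hb).const_mul c
  rw [← ofReal_integral_eq_lintegral_ofReal h2
    (Eventually.of_forall fun z => by positivity), integral_const_mul]
  congr 2
  rw [← h1]
  congr 1
  ext z
  congr 1
  ring

omit [FiniteDimensional ℝ V] [MeasurableSpace V] [BorelSpace V] in
theorem kern_sq {S : ℝ} (z : V) :
    kern S z ^ 2 = (S ^ ((finrank ℝ V : ℝ) / 2)) ^ 2 * Real.exp (-(2 * π * S * ‖z‖ ^ 2)) := by
  rw [kern, mul_pow, ← Real.exp_nat_mul]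
  congr 2
  push_cast
  ring

theorem lintegral_wt {S : ℝ} (hS : 0 < S) :
    ∫⁻ z : V, wt S z = ENNReal.ofReal ((S / 2) ^ ((finrank ℝ V : ℝ) / 2)) := by
  unfold wt
  simp_rw [kern_sq]
  rw [lintegral_gaussian (by positivity) _ (by positivity)]
  congr 1
  have h1 : π / (2 * π * S) = (2 * S)⁻¹ := by
    have := Real.pi_pos.ne'
    field_simp
  rw [h1, sq, mul_assoc, ← Real.mul_rpow hS.le (by positivity), ← Real.mul_rpow hS.le (by positivity)]
  congr 1
  field_simp

theorem tail_wt {S δ : ℝ} (hS : 0 < S) (hδ : 0 ≤ δ) :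
    ∫⁻ z in {z : V | δ ≤ ‖z‖}, wt S z ≤
      ENNReal.ofReal (2 ^ ((finrank ℝ V : ℝ) / 2) * Real.exp (-(π * (S * δ ^ 2)))) *
        ∫⁻ z : V, wt S z := by
  have hT : MeasurableSet {z : V | δ ≤ ‖z‖} :=
    (isClosed_le continuous_const continuous_norm).measurableSet
  calc ∫⁻ z in {z : V | δ ≤ ‖z‖}, wt S z ≤
      ∫⁻ z in {z : V | δ ≤ ‖z‖}, ENNReal.ofReal
        ((Real.exp (-(π * (S * δ ^ 2))) * (S ^ ((finrank ℝ V : ℝ) / 2)) ^ 2) *
          Real.exp (-((π * S) * ‖z‖ ^ 2))) := by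
        apply setLIntegral_mono' hT
        intro z hz
        rw [wt, kern_sq]
        apply ENNReal.ofReal_le_ofReal
        have hz' : δ ≤ ‖z‖ := hz
        have e1 : Real.exp (-(2 * π * S * ‖z‖ ^ 2)) ≤
            Real.exp (-(π * (S * δ ^ 2))) * Real.exp (-((π * S) * ‖z‖ ^ 2)) := by
          rw [← Real.exp_add]
          apply Real.exp_le_exp.mpr
          have e2 : δ ^ 2 ≤ ‖z‖ ^ 2 := by gcongr
          have e3 : π * S * δ ^ 2 ≤ π * S * ‖z‖ ^ 2 :=
            mul_le_mul_of_nonneg_left e2 (by positivity)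
          nlinarith
        calc (S ^ ((finrank ℝ V : ℝ) / 2)) ^ 2 * Real.exp (-(2 * π * S * ‖z‖ ^ 2)) ≤
            (S ^ ((finrank ℝ V : ℝ) / 2)) ^ 2 *
              (Real.exp (-(π * (S * δ ^ 2))) * Real.exp (-((π * S) * ‖z‖ ^ 2))) := by gcongr
          _ = _ := by ring
    _ ≤ ∫⁻ z : V, ENNReal.ofReal
        ((Real.exp (-(π * (S * δ ^ 2))) * (S ^ ((finrank ℝ V : ℝ) / 2)) ^ 2) *
          Real.exp (-((π * S) * ‖z‖ ^ 2))) := setLIntegral_le_lintegral _ _
    _ = ENNReal.ofReal ((Real.exp (-(π * (S * δ ^ 2))) * (S ^ ((finrank ℝ V : ℝ) / 2)) ^ 2) *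
          (π / (π * S)) ^ ((finrank ℝ V : ℝ) / 2)) :=
        lintegral_gaussian (by positivity) _ (by positivity)
    _ = _ := by
        rw [lintegral_wt hS, ← ENNReal.ofReal_mul (by positivity)]
        congr 1
        have h1 : π / (π * S) = S⁻¹ := by
          have := Real.pi_pos.ne'
          field_simp
        have h2 : S ^ ((finrank ℝ V : ℝ) / 2) * S⁻¹ ^ ((finrank ℝ V : ℝ) / 2) = 1 := by
          rw [← Real.mul_rpow hS.le (by positivity), mul_inv_cancel₀ hS.ne', Real.one_rpow]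
        have h3 : (2 : ℝ) ^ ((finrank ℝ V : ℝ) / 2) * (S / 2) ^ ((finrank ℝ V : ℝ) / 2) =
            S ^ ((finrank ℝ V : ℝ) / 2) := by
          rw [← Real.mul_rpow (by norm_num) (by positivity)]
          congr 1
          field_simp
        rw [h1]
        calc Real.exp (-(π * (S * δ ^ 2))) * (S ^ ((finrank ℝ V : ℝ) / 2)) ^ 2 *
              S⁻¹ ^ ((finrank ℝ V : ℝ) / 2)
            = Real.exp (-(π * (S * δ ^ 2))) * S ^ ((finrank ℝ V : ℝ) / 2) *
              (S ^ ((finrank ℝ V : ℝ) / 2) * S⁻¹ ^ ((finrank ℝ V : ℝ) / 2)) := by ring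
          _ = Real.exp (-(π * (S * δ ^ 2))) * S ^ ((finrank ℝ V : ℝ) / 2) := by
              rw [h2, mul_one]
          _ = 2 ^ ((finrank ℝ V : ℝ) / 2) * Real.exp (-(π * (S * δ ^ 2))) *
              (S / 2) ^ ((finrank ℝ V : ℝ) / 2) := by
              rw [← h3]; ring

theorem ball_vol {S : ℝ} (hS : 0 < S) (hdim : 0 < finrank ℝ V) :
    volume (ball (0 : V) (Real.sqrt S / 4)) =
      ENNReal.ofReal ((1 / 8) ^ ((finrank ℝ V : ℝ) / 2)) * volume (ball (0 : V) 1) *
        ∫⁻ z : V, wt S z := by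
  have hnt : Nontrivial V := Module.nontrivial_of_finrank_pos hdim
  rw [Measure.addHaar_ball volume (0 : V) (by positivity), lintegral_wt hS,
    mul_comm (ENNReal.ofReal ((1 / 8) ^ ((finrank ℝ V : ℝ) / 2))) _, mul_assoc,
    ← ENNReal.ofReal_mul (by positivity), mul_comm]
  congr 2
  rw [← Real.mul_rpow (by norm_num) (by positivity)]
  have h1 : (1 / 8 * (S / 2) : ℝ) = (Real.sqrt S / 4) ^ 2 := by
    rw [div_pow, Real.sq_sqrt hS.le]; ring
  rw [h1, ← Real.rpow_natCast, ← Real.rpow_natCast (Real.sqrt S / 4) 2,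
    ← Real.rpow_mul (by positivity)]
  congr 1
  push_cast
  ring

/-- The neighbourhood inequality for `L¹ ∩ L²` spectra. -/
theorem neigh_core (hdim : 0 < finrank ℝ V) {L θ a h : ℝ} (hL : 0 < L) (ha : 0 < a)
    (haθ : a < θ) (hθ : θ ≤ 1) :
    ∃ A C : ℝ, 0 < A ∧ 0 < C ∧ ∀ E : Set V, MeasurableSet E →
      (∀ ω : V, ‖ω‖ = 1 → ∀ᵐ x, a ≤
        angle.real {t | x - bdry (2 * L * θ / (θ - a)) t • ω ∈ E}) →
      ∀ R : ℝ, 0 ≤ R → ∀ δ : ℝ, A ≤ δ * Real.sqrt (1 + R) →
      ∀ g : V → ℂ, StronglyMeasurable g → Integrable g → MemLp g 2 →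
        (∀ ξ, g ξ ≠ 0 → R ≤ ‖ξ‖ ∧ ‖ξ‖ ≤ R + h) →
        ∫⁻ x, ‖𝓕⁻ g x‖ₑ ^ 2 ≤ ENNReal.ofReal C * ∫⁻ x in thickening δ E, ‖𝓕⁻ g x‖ₑ ^ 2 := by
  have hnt : Nontrivial V := Module.nontrivial_of_finrank_pos hdim
  have ha1 : a < 1 := haθ.trans_le hθ
  have hδ0 : 0 < θ - a := by linarith
  have hθ0 : 0 < θ := ha.trans haθ
  set y : ℝ := 2 * L * θ / (θ - a) with hy
  have hy0 : 0 < y := by positivity
  set N : ℝ := (finrank ℝ V : ℝ) / 2 with hN
  set b₁ : ℝ := (volume (ball (0 : V) 1)).toReal with hb₁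
  have hvfin : volume (ball (0 : V) 1) ≠ ∞ := measure_ball_lt_top.ne
  have hb₁0 : 0 < b₁ := ENNReal.toReal_pos (measure_ball_pos _ _ one_pos).ne' hvfin
  have hb₁' : volume (ball (0 : V) 1) = ENNReal.ofReal b₁ := (ENNReal.ofReal_toReal hvfin).symm
  set c₀ : ℝ := Real.exp (-(π / 8 + 4 * π * y * (h + 2))) with hc₀
  set q : ℝ := c₀ * ((1 / 8) ^ N * b₁) with hq
  have hq0 : 0 < q := by positivity
  set C₁ : ℝ := (exp 1 / q) ^ (1 / a) with hC₁
  have hC₁0 : 0 < C₁ := by positivity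
  set A : ℝ := Real.sqrt (2 * (2 ^ N * C₁) / π) with hA
  have hA0 : 0 < A := by
    rw [hA]
    apply Real.sqrt_pos.mpr
    have := Real.pi_pos
    positivity
  refine ⟨A, 2 * C₁, hA0, by positivity, ?_⟩
  intro E hE hd R hR δ hδ g hg h1 h2 hsupp
  have hS : 0 < 1 + R := by linarith
  set S := 1 + R with hSdef
  set X : ℝ≥0∞ := ∫⁻ x, ‖𝓕⁻ g x‖ₑ ^ 2 with hX
  set W : ℝ≥0∞ := ∫⁻ z : V, wt S z with hW
  set M : ℝ≥0∞ := ∫⁻ x in thickening δ E, ‖𝓕⁻ g x‖ₑ ^ 2 with hM
  have hXg : ∫⁻ ξ, ‖g ξ‖ₑ ^ 2 = X := (plancherel h1 h2).symm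
  have hXfin : X ≠ ∞ := by
    rw [← hXg]
    have e3 := eLpNorm_nnreal_pow_eq_lintegral (f := g) (p := 2) (μ := (volume : Measure V))
      two_ne_zero
    norm_num at e3
    rw [← e3]
    exact ENNReal.pow_ne_top h2.eLpNorm_ne_top
  have hWval : W = ENNReal.ofReal ((S / 2) ^ N) := lintegral_wt hS
  have hW0 : W ≠ 0 := by
    rw [hWval]
    have : 0 < (S / 2) ^ N := by positivity
    simpa using this
  have hWfin : W ≠ ∞ := by rw [hWval]; exact ENNReal.ofReal_ne_top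
  have hk : Measurable fun x => ‖𝓕⁻ g x‖ₑ ^ 2 :=
    ((continuous_fourierInv h1).measurable.enorm).pow_const 2
  have hδpos : 0 ≤ δ := by
    by_contra hcon
    push Not at hcon
    have : δ * Real.sqrt S ≤ 0 := mul_nonpos_of_nonpos_of_nonneg hcon.le (Real.sqrt_nonneg _)
    linarith
  -- the tail
  set t : ℝ := 2 ^ N * Real.exp (-(π * (S * δ ^ 2))) with ht
  have hYb := y_bound hk hE S δ
  have htail := tail_wt (V := V) hS hδpos
  have hY : ∫⁻ z, wt S z * ∫⁻ x in E, ‖𝓕⁻ g (x + z)‖ₑ ^ 2 ≤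
      W * (M + ENNReal.ofReal t * X) := by
    refine hYb.trans ?_
    rw [mul_add]
    refine add_le_add le_rfl ?_
    calc (∫⁻ z in {z : V | δ ≤ ‖z‖}, wt S z) * X ≤ (ENNReal.ofReal t * W) * X :=
          mul_le_mul' htail le_rfl
      _ = W * (ENNReal.ofReal t * X) := by ring
  have key := neigh_aux hg h1 h2 hdim hR hsupp hE hy0 ha ha1 hd
  rw [hXg, ball_vol hS hdim] at key
  have key2 : ENNReal.ofReal q * W * X ≤ ENNReal.ofReal (exp 1) *
      ((W * (M + ENNReal.ofReal t * X)) ^ a * (W * X) ^ (1 - a)) := by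
    have e1 : ENNReal.ofReal q * W * X = ENNReal.ofReal c₀ *
        (ENNReal.ofReal ((1 / 8) ^ N) * volume (ball (0 : V) 1) * W) * X := by
      rw [hq, ENNReal.ofReal_mul (by positivity), ENNReal.ofReal_mul (by positivity), hb₁']
      ring
    rw [e1]
    refine key.trans ?_
    gcongr
  set Z : ℝ≥0∞ := M + ENNReal.ofReal t * X with hZ
  have key3 : ENNReal.ofReal q * X ≤ ENNReal.ofReal (exp 1) * (Z ^ a * X ^ (1 - a)) := by
    rw [ENNReal.mul_rpow_of_nonneg _ _ ha.le, ENNReal.mul_rpow_of_nonneg _ _ (by linarith)] at key2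
    have e2 : W ^ a * W ^ (1 - a) = W := by
      rw [← ENNReal.rpow_add _ _ hW0 hWfin]
      simp
    have e3 : ENNReal.ofReal (exp 1) * (W ^ a * Z ^ a * (W ^ (1 - a) * X ^ (1 - a))) =
        W * (ENNReal.ofReal (exp 1) * (Z ^ a * X ^ (1 - a))) := by
      calc _ = (W ^ a * W ^ (1 - a)) * (ENNReal.ofReal (exp 1) * (Z ^ a * X ^ (1 - a))) := by ring
        _ = _ := by rw [e2]
    rw [e3, mul_comm (ENNReal.ofReal q) W, mul_assoc] at key2
    exact (ENNReal.mul_le_mul_iff_right hW0 hWfin).mp key2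
  have key4 : X ≤ ENNReal.ofReal (exp 1 / q) * (Z ^ a * X ^ (1 - a)) := by
    have hq' : ENNReal.ofReal q ≠ 0 := by simpa using hq0
    have e4 : ENNReal.ofReal (exp 1 / q) = ENNReal.ofReal (exp 1) * (ENNReal.ofReal q)⁻¹ := by
      rw [div_eq_mul_inv, ENNReal.ofReal_mul (exp_pos _).le, ENNReal.ofReal_inv_of_pos hq0]
    calc X = (ENNReal.ofReal q)⁻¹ * (ENNReal.ofReal q * X) := by
          rw [← mul_assoc, ENNReal.inv_mul_cancel hq' ENNReal.ofReal_ne_top, one_mul]
      _ ≤ (ENNReal.ofReal q)⁻¹ * (ENNReal.ofReal (exp 1) * (Z ^ a * X ^ (1 - a))) := by gcongr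
      _ = _ := by rw [e4]; ring
  have key5 := absorb ha ha1 hXfin key4
  have e5 : ENNReal.ofReal (exp 1 / q) ^ (1 / a) = ENNReal.ofReal C₁ := by
    rw [ENNReal.ofReal_rpow_of_nonneg (by positivity) (by positivity)]
  rw [e5] at key5
  have hhalf : C₁ * t ≤ 1 / 2 := by
    have e6 : A ^ 2 ≤ S * δ ^ 2 := by
      have e7 : A ^ 2 ≤ (δ * Real.sqrt S) ^ 2 := by gcongr
      rw [mul_pow, Real.sq_sqrt hS.le] at e7
      linarith
    have e8 : A ^ 2 = 2 * (2 ^ N * C₁) / π := Real.sq_sqrt (by positivity)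
    have e9 : 2 * (2 ^ N * C₁) ≤ π * (S * δ ^ 2) := by
      have := Real.pi_pos
      calc 2 * (2 ^ N * C₁) = π * A ^ 2 := by rw [e8]; field_simp
        _ ≤ _ := by gcongr
    set x₀ : ℝ := 2 * (2 ^ N * C₁) with hx₀
    have hx₀pos : 0 < x₀ := by positivity
    have e10 : Real.exp (-(π * (S * δ ^ 2))) ≤ 1 / x₀ := by
      rw [Real.exp_neg, inv_eq_one_div]
      apply one_div_le_one_div_of_le hx₀pos
      have := Real.add_one_le_exp (π * (S * δ ^ 2))
      linarith
    calc C₁ * t = (2 ^ N * C₁) * Real.exp (-(π * (S * δ ^ 2))) := by rw [ht]; ring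
      _ ≤ (2 ^ N * C₁) * (1 / x₀) := by gcongr
      _ = 1 / 2 := by rw [hx₀]; field_simp
  have key6 : X ≤ ENNReal.ofReal C₁ * M + ENNReal.ofReal (1 / 2) * X := by
    refine key5.trans ?_
    rw [hZ, mul_add, ← mul_assoc, ← ENNReal.ofReal_mul hC₁0.le]
    gcongr
  -- absorb
  by_cases hMfin : M = ∞
  · rw [hMfin, ENNReal.mul_top (by simpa using hC₁0)]
    exact le_top
  have hX' := ENNReal.toReal_mono (by
    exact ENNReal.add_ne_top.mpr ⟨ENNReal.mul_ne_top ENNReal.ofReal_ne_top hMfin,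
      ENNReal.mul_ne_top ENNReal.ofReal_ne_top hXfin⟩) key6
  rw [ENNReal.toReal_add (ENNReal.mul_ne_top ENNReal.ofReal_ne_top hMfin)
    (ENNReal.mul_ne_top ENNReal.ofReal_ne_top hXfin), ENNReal.toReal_mul, ENNReal.toReal_mul,
    ENNReal.toReal_ofReal hC₁0.le, ENNReal.toReal_ofReal (by norm_num)] at hX'
  have hX2 : X.toReal ≤ 2 * C₁ * M.toReal := by linarith
  calc X = ENNReal.ofReal X.toReal := (ENNReal.ofReal_toReal hXfin).symm
    _ ≤ ENNReal.ofReal (2 * C₁ * M.toReal) := ENNReal.ofReal_le_ofReal hX2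
    _ = ENNReal.ofReal (2 * C₁) * M := by
        rw [ENNReal.ofReal_mul (by positivity), ENNReal.ofReal_toReal hMfin]

end Helper77.TA
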