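import Pool.Agent.Helper77.TA.Neigh2

open MeasureTheory Filter Topology Real Metric FourierTransform Module
open scoped ENNReal NNReal InnerProductSpace

namespace Helper77.TA

variable {V : Type*} [NormedAddCommGroup V] [InnerProductSpace ℝ V] [FiniteDimensional ℝ V]
  [MeasurableSpace V] [BorelSpace V]

/-- Uniform constant for neighbourhoods of size `A (1 + R) ^ (-1/2)` of sets satisfying the
geometric control condition. -/
theorem neighbourhood_uniform (hdim : 0 < finrank ℝ V) {L θ h : ℝ} (hL : 0 < L) (hθ0 : 0 < θ) :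
    ∃ A C : ℝ, 0 < A ∧ 0 < C ∧ ∀ E : Set V, NullMeasurableSet E volume → GCC E L θ →
      ∀ R : ℝ, 0 ≤ R → ∀ δ : ℝ, A ≤ δ * Real.sqrt (1 + R) →
      ∀ f : L2 V, SpectrumIn f {ξ | R ≤ ‖ξ‖ ∧ ‖ξ‖ ≤ R + h} →
        Controlled (thickening δ E) C f := by
  have hnt : Nontrivial V := Module.nontrivial_of_finrank_pos hdim
  obtain ⟨u0, hu0⟩ : ∃ u0 : V, ‖u0‖ = 1 := exists_norm_eq V zero_le_one
  by_cases hθ : θ ≤ 1
  swap
  · refine ⟨1, 1, one_pos, one_pos, ?_⟩
    intro E _ hgcc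
    exfalso
    have h1 := hgcc u0 hu0 0
    have h2 : volume {t : ℝ | t ∈ Set.Icc 0 L ∧ (0 : V) + t • u0 ∈ E} ≤
        volume (Set.Icc (0 : ℝ) L) := measure_mono fun t ht => ht.1
    rw [Real.volume_Icc, sub_zero] at h2
    have h3 := (ENNReal.ofReal_le_ofReal_iff hL.le).mp (h1.trans h2)
    push Not at hθ
    nlinarith
  have haθ : θ / 2 < θ := by linarith
  have ha : 0 < θ / 2 := by linarith
  obtain ⟨A, C, hA, hC, hmain⟩ := neigh_core (V := V) (h := h) hdim hL ha haθ hθ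
  refine ⟨A, Real.sqrt C, hA, Real.sqrt_pos.mpr hC, ?_⟩
  intro E hE hgcc R hR δ hδ f hf
  obtain ⟨E', hE'E, hE', hae⟩ := hE.exists_measurable_subset_ae_eq
  have hnull : volume (E \ E') = 0 := ae_le_set.mp hae.symm.le
  have hd : ∀ ω : V, ‖ω‖ = 1 → ∀ᵐ x, θ / 2 ≤
      angle.real {t | x - bdry (2 * L * θ / (θ - θ / 2)) t • ω ∈ E'} := by
    intro ω hω
    apply thick_to_angle hE' hL ha haθ
    filter_upwards [null_section hnull ω] with x hx
    refine (hgcc ω hω x).trans ?_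
    apply measure_mono_ae
    filter_upwards [hx] with t ht h
    refine ⟨h.1, ?_⟩
    by_contra hcon
    exact ht ⟨h.2, hcon⟩
  set P : Set V := {ξ | R ≤ ‖ξ‖ ∧ ‖ξ‖ ≤ R + h} with hP
  have hPm : MeasurableSet P := by
    have h1 : IsClosed {ξ : V | R ≤ ‖ξ‖} := isClosed_le continuous_const continuous_norm
    have h2 : IsClosed {ξ : V | ‖ξ‖ ≤ R + h} := isClosed_le continuous_norm continuous_const
    exact (h1.inter h2).measurableSet
  have hPb : P ⊆ closedBall 0 (R + h) := by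
    intro ξ hξ
    simpa using hξ.2
  have hPfin : volume P ≠ ∞ := ((measure_mono hPb).trans_lt measure_closedBall_lt_top).ne
  set g₀ : V → ℂ := ((𝓕 f : L2 V) : V → ℂ) with hg₀
  set g : V → ℂ := P.indicator g₀ with hg
  have hgs : StronglyMeasurable g := (Lp.stronglyMeasurable _).indicator hPm
  have hgae : g =ᵐ[volume] g₀ := by
    filter_upwards [hf] with ξ hξ
    by_cases h0 : g₀ ξ = 0
    · rw [hg, h0, Set.indicator_apply_eq_zero]
      intro _; exact h0
    · rw [hg, Set.indicator_of_mem]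
      exact hξ h0
  have h2' : MemLp g₀ 2 := Lp.memLp _
  have h2 : MemLp g 2 := h2'.indicator hPm
  have h1 : Integrable g := by
    rw [hg, integrable_indicator_iff hPm]
    have h3 : MemLp g₀ 2 (volume.restrict P) := h2'.restrict P
    have : IsFiniteMeasure (volume.restrict P) := ⟨by simpa using hPfin.lt_top⟩
    exact h3.integrable (by norm_num)
  have hgP : ∀ ξ, g ξ ≠ 0 → R ≤ ‖ξ‖ ∧ ‖ξ‖ ≤ R + h := by
    intro ξ hξ
    by_contra hcon
    have hcon' : ξ ∉ P := hcon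
    exact hξ (Set.indicator_of_notMem hcon' g₀)
  have key := hmain E' hE' hd R hR δ hδ g hgs h1 h2 hgP
  have hFf : (f : V → ℂ) =ᵐ[volume] 𝓕⁻ g := by
    have e1 : h2.toLp g = (𝓕 f : L2 V) := by
      apply Lp.ext
      exact h2.coeFn_toLp.trans hgae
    have e2 := fourierInv_toLp_ae h1 h2
    rw [e1] at e2
    have e3 : (𝓕⁻ (𝓕 f : L2 V) : L2 V) = f := FourierTransform.fourierInv_fourier_eq f
    rw [e3] at e2
    exact e2
  have hmono : ∫⁻ x in thickening δ E', ‖𝓕⁻ g x‖ₑ ^ 2 ≤ ∫⁻ x in thickening δ E, ‖𝓕⁻ g x‖ₑ ^ 2 :=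
    lintegral_mono_set (thickening_subset_of_subset δ hE'E)
  have key2 : ∫⁻ x, ‖𝓕⁻ g x‖ₑ ^ 2 ≤
      ENNReal.ofReal C * ∫⁻ x in thickening δ E, ‖𝓕⁻ g x‖ₑ ^ 2 :=
    key.trans (mul_le_mul' le_rfl hmono)
  have e4 := eLpNorm_nnreal_pow_eq_lintegral (f := 𝓕⁻ g) (p := 2) (μ := (volume : Measure V))
    two_ne_zero
  have e5 := eLpNorm_nnreal_pow_eq_lintegral (f := 𝓕⁻ g) (p := 2)
    (μ := (volume.restrict (thickening δ E) : Measure V)) two_ne_zero
  norm_num at e4 e5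
  rw [← e4, ← e5] at key2
  unfold Controlled
  have e6 : eLpNorm f 2 volume = eLpNorm (𝓕⁻ g) 2 volume := eLpNorm_congr_ae hFf
  have e7 : eLpNorm f 2 (volume.restrict (thickening δ E)) =
      eLpNorm (𝓕⁻ g) 2 (volume.restrict (thickening δ E)) :=
    eLpNorm_congr_ae (ae_restrict_of_ae hFf)
  rw [e6, e7]
  have e9 : eLpNorm (𝓕⁻ g) 2 volume ^ 2 ≤
      (ENNReal.ofReal (Real.sqrt C) *
        eLpNorm (𝓕⁻ g) 2 (volume.restrict (thickening δ E))) ^ 2 := by
    rw [mul_pow, ← ENNReal.ofReal_pow (Real.sqrt_nonneg _), Real.sq_sqrt hC.le]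
    exact key2
  exact (ENNReal.pow_le_pow_left_iff two_ne_zero).mp e9

end Helper77.TA
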