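import Pool.Agent.Helper77.TA.Caps
import Pool.Agent.Helper77.TA.Cover

open MeasureTheory Filter Topology Real Metric FourierTransform Module
open scoped ENNReal NNReal InnerProductSpace

namespace Helper77.TA

variable {V : Type*} [NormedAddCommGroup V] [InnerProductSpace ℝ V] [FiniteDimensional ℝ V]
  [MeasurableSpace V] [BorelSpace V]

omit [FiniteDimensional ℝ V] [MeasurableSpace V] [BorelSpace V] in
/-- Points of the annulus near the direction `ω` lie in a cap of bounded height. -/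
theorem cap_height {R h β : ℝ} (hR : 0 ≤ R) (hh : 0 ≤ h) (hβ : 0 ≤ β) {ξ ω : V}
    (hω : ‖ω‖ = 1) (h1 : R ≤ ‖ξ‖) (h2 : ‖ξ‖ ≤ R + h)
    (h3 : ‖(‖ξ‖⁻¹ : ℝ) • ξ - ω‖ ^ 2 ≤ β / (1 + R)) :
    (R + h) - (h + β * (1 + h) / 2) ≤ ⟪ξ, ω⟫_ℝ := by
  by_cases hξ0 : ξ = 0
  · rw [hξ0, norm_zero] at h1
    rw [hξ0, inner_zero_left]
    have : 0 ≤ β * (1 + h) / 2 := by positivity
    linarith
  have hξ : 0 < ‖ξ‖ := norm_pos_iff.mpr hξ0
  set u : V := (‖ξ‖⁻¹ : ℝ) • ξ with hu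
  have hu1 : ‖u‖ = 1 := by
    rw [hu, norm_smul, norm_inv, norm_norm, inv_mul_cancel₀ hξ.ne']
  have e1 : ‖u - ω‖ ^ 2 = 2 - 2 * ⟪u, ω⟫_ℝ := by
    rw [norm_sub_sq_real, hu1, hω]; ring
  have e2 : ⟪ξ, ω⟫_ℝ = ‖ξ‖ * ⟪u, ω⟫_ℝ := by
    rw [hu, inner_smul_left]
    simp only [RCLike.conj_to_real]
    rw [← mul_assoc, mul_inv_cancel₀ hξ.ne', one_mul]
  have e3 : 1 - β / (1 + R) / 2 ≤ ⟪u, ω⟫_ℝ := by
    rw [e1] at h3; linarith
  rw [e2]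
  have e4 : ‖ξ‖ * (1 - β / (1 + R) / 2) ≤ ‖ξ‖ * ⟪u, ω⟫_ℝ := mul_le_mul_of_nonneg_left e3 hξ.le
  have e5 : ‖ξ‖ * (β / (1 + R) / 2) ≤ ((1 + R) * (1 + h)) * (β / (1 + R) / 2) := by
    apply mul_le_mul_of_nonneg_right _ (by positivity)
    nlinarith
  have e6 : ((1 + R) * (1 + h)) * (β / (1 + R) / 2) = β * (1 + h) / 2 := by
    field_simp
  nlinarith

/-- Polynomial bound for the annulus. -/
theorem annulus_poly {n : ℕ} (hn : finrank ℝ V = n + 1) {L θ a h : ℝ} (hL : 0 < L) (ha : 0 < a)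
    (haθ : a < θ) (hθ : θ ≤ 1) (hh : 0 ≤ h) {E : Set V} (hE : NullMeasurableSet E)
    (hgcc : GCC E L θ) {R : ℝ} (hR : 0 ≤ R) (f : Lp (α := V) ℂ 2)
    (hf : ∀ᵐ ξ, ((𝓕 f : Lp (α := V) ℂ 2) : V → ℂ) ξ ≠ 0 → R ≤ ‖ξ‖ ∧ ‖ξ‖ ≤ R + h) :
    eLpNorm f 2 volume ≤
      ENNReal.ofReal ((((n + 1) * 4 ^ (n + 1)) *
        exp (1 + 8 * π * L * θ * ((1 + 3 * h) / 2) / (θ - a))) ^ (1 / (2 * a)) *
        (1 + R) ^ ((n : ℝ) / (4 * a)))
      * eLpNorm f 2 (volume.restrict E) := by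
  have hR0 : 0 < 1 + R := by linarith
  have hR1 : 1 ≤ 1 + R := by linarith
  have hδ0 : 0 < (1 + R) ^ (-(1 / 2) : ℝ) := by positivity
  have hδ1 : (1 + R) ^ (-(1 / 2) : ℝ) ≤ 1 :=
    Real.rpow_le_one_of_one_le_of_nonpos hR1 (by norm_num)
  obtain ⟨s, hs1, hs2, hs3⟩ := exists_net hn hδ0 hδ1
  have hdelta : 0 < θ - a := by linarith
  have hθ0 : 0 < θ := ha.trans haθ
  have hnt : Nontrivial V := by
    apply Module.nontrivial_of_finrank_pos (R := ℝ)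
    omega
  obtain ⟨u0, hu0⟩ : ∃ u0 : V, ‖u0‖ = 1 := exists_norm_eq V zero_le_one
  have key := caps_thick (ι := s) (fun j => (j : V)) (fun j => hs1 j j.2) (ρ := R + h)
    (c₀ := (1 + 3 * h) / 2) hE hL ha haθ hθ (fun j => hgcc j (hs1 j j.2)) f
    (by
      filter_upwards [hf] with ξ hξ h0
      obtain ⟨h1, h2⟩ := hξ h0
      refine ⟨h2, ?_⟩
      by_cases hξ0 : ξ = 0
      · obtain ⟨v, hv, _⟩ := hs3 u0 hu0
        refine ⟨⟨v, hv⟩, ?_⟩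
        rw [hξ0, norm_zero] at h1
        rw [hξ0, inner_zero_left]
        linarith
      have hξ' : 0 < ‖ξ‖ := norm_pos_iff.mpr hξ0
      have hu1 : ‖(‖ξ‖⁻¹ : ℝ) • ξ‖ = 1 := by
        rw [norm_smul, norm_inv, norm_norm, inv_mul_cancel₀ hξ'.ne']
      obtain ⟨v, hv, hvd⟩ := hs3 _ hu1
      refine ⟨⟨v, hv⟩, ?_⟩
      rw [dist_eq_norm] at hvd
      have h3 : ‖(‖ξ‖⁻¹ : ℝ) • ξ - v‖ ^ 2 ≤ 1 / (1 + R) := by
        have h4 : ((1 + R) ^ (-(1 / 2) : ℝ)) ^ 2 = 1 / (1 + R) := by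
          rw [← Real.rpow_natCast, ← Real.rpow_mul hR0.le]
          norm_num
          exact Real.rpow_neg_one (1 + R)
        rw [← h4]
        have := norm_nonneg ((‖ξ‖⁻¹ : ℝ) • ξ - v)
        gcongr
      have h5 := cap_height hR hh zero_le_one (hs1 v hv) h1 h2 h3
      simp only
      linarith)
  refine key.trans ?_
  gcongr
  rw [Fintype.card_coe]
  have hcard : (s.card : ℝ) ≤ (n + 1) * 4 ^ (n + 1) * (1 + R) ^ ((n : ℝ) / 2) := by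
    have e1 : ((1 + R) ^ (-(1 / 2) : ℝ)) ^ n * (1 + R) ^ ((n : ℝ) / 2) = 1 := by
      rw [← Real.rpow_natCast, ← Real.rpow_mul hR0.le, ← Real.rpow_add hR0]
      have : -(1 / 2) * (n : ℝ) + n / 2 = 0 := by ring
      rw [this, Real.rpow_zero]
    calc (s.card : ℝ) = s.card * ((1 + R) ^ (-(1 / 2) : ℝ)) ^ n * (1 + R) ^ ((n : ℝ) / 2) := by
          rw [mul_assoc, e1, mul_one]
      _ ≤ _ := by gcongr
  set X : ℝ := exp (1 + 8 * π * L * θ * ((1 + 3 * h) / 2) / (θ - a)) with hX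
  have hX0 : 0 < X := exp_pos _
  calc ((s.card : ℝ) * X) ^ (1 / (2 * a)) ≤
      (((n + 1) * 4 ^ (n + 1) * (1 + R) ^ ((n : ℝ) / 2)) * X) ^ (1 / (2 * a)) := by gcongr
    _ = ((((n + 1) * 4 ^ (n + 1)) * X) * (1 + R) ^ ((n : ℝ) / 2)) ^ (1 / (2 * a)) := by ring_nf
    _ = (((n + 1) * 4 ^ (n + 1)) * X) ^ (1 / (2 * a)) * (1 + R) ^ ((n : ℝ) / (4 * a)) := by
        rw [Real.mul_rpow (by positivity) (by positivity), ← Real.rpow_mul hR0.le]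
        congr 2
        field_simp
        ring

end Helper77.TA
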